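import Pool.Agent.H87.MS.Va

/-!
# THEOREM R for classes of unary algebras given by upward closed families of sets of equations

`Eqs x u`: the equations satisfied by the element `u` of the algebra `x`: triples `(w, w', b)` of two words and
a truth value; `b = false`: `w u = w' u`; `b = true`: `w u = w' v` for all `v`. `Cls κ K`: the algebras (with
colours `κ`) with `Eqs x u ∈ K` for all `u`. For `K` closed upwards (varieties, classes of algebras which are
closed under images of one-generated subalgebras, ..) `cls_dich`: strong Vaught for `Cls κ K` holds iff all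
members are uniserial (`Uni`), or the full strong Vaught conjecture holds.
-/

set_option autoImplicit false

namespace Pool.H87.MS

open Set Function Pool.H63.MQ Pool.H22.D Pool.H17.MA

variable {ι κ : Type}

/-- the equations satisfied by `u` -/
def Eqs (x : Alg ι κ) (u : ℕ) : Set (List ι × List ι × Bool) :=
  {p | if p.2.2 = true then ∀ v, wv x.1 p.1 u = wv x.1 p.2.1 v else wv x.1 p.1 u = wv x.1 p.2.1 u}

/-- the class given by the family `K` -/
def Cls (κ : Type) (K : Set (Set (List ι × List ι × Bool))) : Set (Alg ι κ) := {x | ∀ u, Eqs x u ∈ K}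

theorem wv_cont (w : List ι) (u : ℕ) : Continuous fun x : Alg ι κ => wv x.1 w u := by
  induction w generalizing u with
  | nil => exact continuous_const
  | cons i w ih =>
    have h1 : Continuous fun x : Alg ι κ => (x.1 i, wv x.1 w u) := by
      have := ih u
      fun_prop
    have h2 : Continuous fun q : (ℕ → ℕ) × ℕ => q.1 q.2 := by
      rw [continuous_discrete_rng]
      intro b
      have : (fun q : (ℕ → ℕ) × ℕ => q.1 q.2) ⁻¹' {b} =
          ⋃ v : ℕ, ({g : ℕ → ℕ | g v = b} ×ˢ {v}) := by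
        ext ⟨g, v⟩
        simp
      rw [this]
      refine isOpen_iUnion fun v => IsOpen.prod ?_ (isOpen_discrete _)
      have h3 : Continuous fun g : ℕ → ℕ => g v := continuous_apply v
      exact (isOpen_discrete {b}).preimage h3
    exact h2.comp h1

theorem wv_iso {x y : Alg ι κ} {σ : Equiv.Perm ℕ} (h : ∀ i u, y.1 i (σ u) = σ (x.1 i u))
    (w : List ι) (u : ℕ) : wv y.1 w (σ u) = σ (wv x.1 w u) := by
  induction w with
  | nil => rfl
  | cons i w ih =>
    show y.1 i (wv y.1 w (σ u)) = σ (x.1 i (wv x.1 w u))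
    rw [ih, h]

theorem mem_eqs_ff {x : Alg ι κ} {u : ℕ} {w w' : List ι} :
    (w, w', false) ∈ Eqs x u ↔ wv x.1 w u = wv x.1 w' u := by simp [Eqs]

theorem mem_eqs_tt {x : Alg ι κ} {u : ℕ} {w w' : List ι} :
    (w, w', true) ∈ Eqs x u ↔ ∀ v, wv x.1 w u = wv x.1 w' v := by simp [Eqs]

theorem eqs_iso {x y : Alg ι κ} {σ : Equiv.Perm ℕ} (h : ∀ i u, y.1 i (σ u) = σ (x.1 i u)) (u : ℕ) :
    Eqs y (σ u) = Eqs x u := by
  ext ⟨w, w', b⟩
  cases b with
  | false =>
    rw [mem_eqs_ff, mem_eqs_ff, wv_iso h, wv_iso h, EmbeddingLike.apply_eq_iff_eq]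
  | true =>
    rw [mem_eqs_tt, mem_eqs_tt]
    constructor
    · intro h1 v
      have h2 := h1 (σ v)
      rw [wv_iso h, wv_iso h] at h2
      exact σ.injective h2
    · intro h1 v
      have h2 := congrArg σ (h1 (σ.symm v))
      rw [← wv_iso h, ← wv_iso h, Equiv.apply_symm_apply] at h2
      exact h2

theorem cls_inv {K : Set (Set (List ι × List ι × Bool))} {x y : Alg ι κ} (h : IsoG x y)
    (hx : x ∈ Cls κ K) : y ∈ Cls κ K := by
  obtain ⟨σ, h1, -⟩ := h
  intro u
  have h2 := eqs_iso h1 (σ.symm u)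
  rw [Equiv.apply_symm_apply] at h2
  rw [h2]
  exact hx _

theorem eqs_closed (E : Set (List ι × List ι × Bool)) (u : ℕ) :
    IsClosed {x : Alg ι κ | E ⊆ Eqs x u} := by
  have e : {x : Alg ι κ | E ⊆ Eqs x u} = ⋂ p ∈ E, {x : Alg ι κ | p ∈ Eqs x u} := by
    ext x
    simp only [mem_setOf_eq, mem_iInter]
    exact Iff.rfl
  rw [e]
  refine isClosed_biInter fun p _ => ?_
  obtain ⟨w, w', b⟩ := p
  cases b with
  | false =>
    have : {x : Alg ι κ | (w, w', false) ∈ Eqs x u} = {x : Alg ι κ | wv x.1 w u = wv x.1 w' u} := by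
      ext x
      simp [Eqs]
    rw [this]
    exact isClosed_eq (wv_cont _ _) (wv_cont _ _)
  | true =>
    have : {x : Alg ι κ | (w, w', true) ∈ Eqs x u} =
        ⋂ v, {x : Alg ι κ | wv x.1 w u = wv x.1 w' v} := by
      ext x
      simp [Eqs]
    rw [this]
    exact isClosed_iInter fun v => isClosed_eq (wv_cont _ _) (wv_cont _ _)

/-- the sets of equations which contain all equations of some element which can be reached from `u₀` -/
def Kx (x₀ : Alg ι κ) (u₀ : ℕ) : Set (Set (List ι × List ι × Bool)) :=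
  {E | ∃ w, Eqs x₀ (wv x₀.1 w u₀) ⊆ E}

theorem kx_meas [Countable ι] (x₀ : Alg ι κ) (u₀ : ℕ) :
    @MeasurableSet (Alg ι κ) (borel (Alg ι κ)) (Cls κ (Kx x₀ u₀)) := by
  borelize (Alg ι κ)
  have e : Cls κ (Kx x₀ u₀) = ⋂ u, ⋃ w : List ι, {x : Alg ι κ | Eqs x₀ (wv x₀.1 w u₀) ⊆ Eqs x u} := by
    ext x
    simp only [Cls, Kx, mem_setOf_eq, mem_iInter, mem_iUnion]
  rw [e]
  exact MeasurableSet.iInter fun u => MeasurableSet.iUnion fun w => (eqs_closed _ u).measurableSet

/-- the action of the free monoid -/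
def fm (x : Alg ι κ) : Fn (FreeMonoid ι) := fun w u => wv x.1 (FreeMonoid.toList w) u

theorem fm_acts (x : Alg ι κ) : fm x ∈ Acts (FreeMonoid ι) := by
  refine ⟨fun u => rfl, fun m n u => ?_⟩
  show wv x.1 (FreeMonoid.toList (m * n)) u = _
  rw [FreeMonoid.toList_mul, wv_append]
  rfl

/-- the algebra of an action of the free monoid -/
def al (κ : Type) (f : Fn (FreeMonoid ι)) : Alg ι κ := (fun i u => f (FreeMonoid.of i) u, fun _ _ => false)

theorem fm_al {f : Fn (FreeMonoid ι)} (hf : f ∈ Acts (FreeMonoid ι)) : fm (al κ f) = f := by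
  funext w u
  have h : ∀ (l : List ι) (u : ℕ), wv (al κ f).1 l u = f (FreeMonoid.ofList l) u := by
    intro l
    induction l with
    | nil => exact fun u => (hf.1 u).symm
    | cons i l ih =>
      intro u
      show f (FreeMonoid.of i) (wv (al κ f).1 l u) = f (FreeMonoid.ofList (i :: l)) u
      rw [ih, ← hf.2]
      rfl
  exact h (FreeMonoid.toList w) u

theorem isoA_equiv {M : Type} : Equivalence (IsoA (M := M)) := by
  refine ⟨fun f => ⟨Equiv.refl ℕ, fun _ _ => rfl⟩, ?_, ?_⟩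
  · rintro f g ⟨σ, h⟩
    refine ⟨σ.symm, fun m u => ?_⟩
    have := h m (σ.symm u)
    rw [Equiv.apply_symm_apply] at this
    rw [this, Equiv.symm_apply_apply]
  · rintro f g k ⟨σ, h⟩ ⟨τ, h'⟩
    refine ⟨σ.trans τ, fun m u => ?_⟩
    have := h' m (σ u)
    rw [h] at this
    exact this

theorem dich_kw [Countable ι] [Countable κ] {x₀ : Alg ι κ} {u₀ : ℕ}
    (h : SVg (Cls κ (Kx x₀ u₀))) : Pool.H63.MQ.Dich IsoA (KW (fm x₀) u₀) := by
  haveI hpol : PolishSpace (Alg ι κ) := alg_polish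
  have hD : Pool.H63.MQ.Dich IsoG (Cls κ (Kx x₀ u₀)) := by
    intro B hB hinv
    rcases h (B ∩ Cls κ (Kx x₀ u₀)) inter_subset_right
      (@MeasurableSet.inter _ (borel (Alg ι κ)) _ _ hB (kx_meas x₀ u₀))
      (fun x y hxy hx => ⟨hinv x y hxy hx.1, cls_inv hxy hx.2⟩) with ⟨D, hD, h1⟩ | ⟨P, h1, h2, h3, h4⟩
    · exact Or.inl ⟨D, hD, fun x hx hxV => h1 x ⟨hx, hxV⟩⟩
    · exact Or.inr ⟨P, h1, h2, fun x hx => (h3 hx).1, h4⟩
  refine Pool.H63.MQ.Dich.push (Y := Alg ι κ) (E' := IsoG) isoA_equiv fm ?_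
    (L := {x : Alg ι κ | ∀ k u, x.2 k u = false}) ?_ ?_ ?_ hD ?_
  · exact continuous_pi fun w => continuous_pi fun u => wv_cont _ _
  · have hc : IsClosed {x : Alg ι κ | ∀ k u, x.2 k u = false} := by
      have e : {x : Alg ι κ | ∀ k u, x.2 k u = false} = ⋂ k, ⋂ u, {x : Alg ι κ | x.2 k u = false} := by
        ext x
        simp only [mem_setOf_eq, mem_iInter]
      rw [e]
      refine isClosed_iInter fun k => isClosed_iInter fun u => isClosed_eq ?_ continuous_const
      fun_prop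
    borelize (Alg ι κ)
    exact hc.measurableSet
  · rintro x y ⟨σ, -, h2⟩ hx k u
    have h3 := h2 k (σ.symm u)
    rw [Equiv.apply_symm_apply] at h3
    rw [h3]
    exact hx k _
  · intro x hx y hy
    constructor
    · rintro ⟨σ, h1, -⟩
      exact ⟨σ, fun w u => wv_iso h1 _ _⟩
    · rintro ⟨σ, h1⟩
      refine ⟨σ, fun i u => h1 (FreeMonoid.of i) u, fun k u => ?_⟩
      rw [hx, hy]
  · rintro f ⟨hf, hfS⟩
    refine ⟨al κ f, fun u => ?_, fun _ _ => rfl, ?_⟩
    · obtain ⟨m, hm⟩ := hfS u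
      rw [← fm_al (κ := κ) hf] at hm
      refine ⟨FreeMonoid.toList m, ?_⟩
      rintro ⟨w, w', b⟩ hp
      exact hm (a := (FreeMonoid.ofList w, FreeMonoid.ofList w', b)) hp
    · rw [fm_al hf]
      exact isoA_equiv.refl f

/-- the wild side -/
theorem wild_cls [Countable ι] [Countable κ] {K : Set (Set (List ι × List ι × Bool))}
    (hK : ∀ E ∈ K, ∀ E', E ⊆ E' → E' ∈ K) {x₀ : Alg ι κ} (hx : x₀ ∈ Cls κ K) (hU : ¬ Uni x₀)
    (h : SVg (Cls κ K)) : Q1 := by
  unfold Uni at hU
  push Not at hU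
  obtain ⟨u, v, w, hv, hw, h1, h2⟩ := hU
  obtain ⟨a, rfl⟩ := wv_of_reach hv
  obtain ⟨b, rfl⟩ := wv_of_reach hw
  haveI : Countable (FreeMonoid ι) := inferInstanceAs (Countable (List ι))
  have hsub : Cls κ (Kx x₀ u) ⊆ Cls κ K := by
    intro x hx' v
    obtain ⟨w, hw⟩ := hx' v
    exact hK _ (hx _) _ hw
  refine wild_kw (fm_acts x₀) (u₀ := u) (a := FreeMonoid.ofList a) (b := FreeMonoid.ofList b)
    (fun m hm => h2 ?_) (fun m hm => h1 ?_) (dich_kw (h.mono hsub))
  · have h3 := reach_wv x₀ (FreeMonoid.toList m) (wv x₀.1 b u)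
    have h4 : wv x₀.1 (FreeMonoid.toList m) (wv x₀.1 b u) = wv x₀.1 a u := hm
    rwa [h4] at h3
  · have h3 := reach_wv x₀ (FreeMonoid.toList m) (wv x₀.1 a u)
    have h4 : wv x₀.1 (FreeMonoid.toList m) (wv x₀.1 a u) = wv x₀.1 b u := hm
    rwa [h4] at h3

/-- **THEOREM R for upward closed families of sets of equations.** -/
theorem cls_dich [Countable ι] [Countable κ] (K : Set (Set (List ι × List ι × Bool)))
    (hK : ∀ E ∈ K, ∀ E', E ⊆ E' → E' ∈ K) :
    SVg (Cls κ K) ↔ (∀ x ∈ Cls κ K, Uni x) ∨ Q1 := by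
  constructor
  · intro h
    by_cases hU : ∀ x ∈ Cls κ K, Uni x
    · exact Or.inl hU
    · right
      push Not at hU
      obtain ⟨x, hx, hxU⟩ := hU
      exact wild_cls hK hx hxU h
  · rintro (h | h)
    · exact (tame_alg ι κ).mono fun x hx => h x hx
    · exact svg_of_q1 h _

/-- the family which gives the uniserial algebras -/
def Kuni (ι : Type) : Set (Set (List ι × List ι × Bool)) :=
  {E | ∀ w w' : List ι, ∃ s, (s ++ w, w', false) ∈ E ∨ (s ++ w', w, false) ∈ E}

theorem kuni_up {E : Set (List ι × List ι × Bool)} (h : E ∈ Kuni ι) {E' : Set (List ι × List ι × Bool)}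
    (hE : E ⊆ E') : E' ∈ Kuni ι := by
  intro w w'
  obtain ⟨s, h1 | h1⟩ := h w w'
  · exact ⟨s, Or.inl (hE h1)⟩
  · exact ⟨s, Or.inr (hE h1)⟩

theorem uni_cls : {x : Alg ι κ | Uni x} = Cls κ (Kuni ι) := by
  ext x
  constructor
  · intro h u w w'
    rcases h u _ _ (reach_wv x w u) (reach_wv x w' u) with h1 | h1
    · obtain ⟨s, hs⟩ := wv_of_reach h1
      refine ⟨s, Or.inl ?_⟩
      simp only [Eqs, mem_setOf_eq, Bool.false_eq_true, if_false]
      rw [wv_append]
      exact hs.symm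
    · obtain ⟨s, hs⟩ := wv_of_reach h1
      refine ⟨s, Or.inr ?_⟩
      simp only [Eqs, mem_setOf_eq, Bool.false_eq_true, if_false]
      rw [wv_append]
      exact hs.symm
  · intro h u v w hv hw
    obtain ⟨a, rfl⟩ := wv_of_reach hv
    obtain ⟨b, rfl⟩ := wv_of_reach hw
    obtain ⟨s, h1 | h1⟩ := h u a b
    · left
      simp only [Eqs, mem_setOf_eq, Bool.false_eq_true, if_false] at h1
      rw [wv_append] at h1
      rw [← h1]
      exact reach_wv x s _
    · right
      simp only [Eqs, mem_setOf_eq, Bool.false_eq_true, if_false] at h1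
      rw [wv_append] at h1
      rw [← h1]
      exact reach_wv x s _

end Pool.H87.MS
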