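import Pool.Agent.H87.MS.Vd

/-!
# Classes of algebras given by the one-generated subalgebras, with a colour

`Eqs1 x u`: the pairs of words `(w, w')` with `w u = w' u`; it is the same as the isomorphism type of the
subalgebra generated by `u` (without the colours). `loc_dich`: for EVERY family `K` strong Vaught for the class of
all algebras with colours (at least one) in which `Eqs1 x u ∈ K` for all `u` holds iff all members are uniserial
or the full strong Vaught conjecture holds. In the wild case let `a u₀`, `b u₀` be not reachable from each other in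
`x₀`; the algebras in which every element satisfies exactly the same equations as some element which can be
reached from `u₀` form a Borel class (`lcx_meas`), and the graphs are coded by coloured members of this class.
-/

set_option autoImplicit false

namespace Pool.H87.MS

open Set Function Pool.H63.MQ Pool.H22.D Pool.H17.MA

section pce

variable {M : Type} [Monoid M]

/-- the orbit of `u₀` is a piece -/
theorem exists_pce [Countable M] {f : Fn M} (hf : f ∈ Acts M) {u₀ : ℕ} {a b : M}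
    (hab : ∀ m : M, f m (f b u₀) ≠ f a u₀) (hba : ∀ m : M, f m (f a u₀) ≠ f b u₀) :
    ∃ (P : Type) (_ : Countable P) (i : MulAction M P) (_ : @Pce M P _ i) (j : P → ℕ),
      Injective j ∧ (∀ (m : M) (p : P), j (m • p) = f m (j p)) ∧ ∀ p, ∃ m, j p = f m u₀ := by
  let i : MulAction M {v : ℕ // ∃ m, v = f m u₀} :=
    { smul := fun k p => ⟨f k p.1, by
        obtain ⟨m, hm⟩ := p.2
        exact ⟨k * m, by rw [hm, hf.2]⟩⟩
      one_smul := fun p => Subtype.ext (hf.1 _)
      mul_smul := fun k l p => Subtype.ext (hf.2 _ _ _) }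
  have hs : ∀ (k : M) (p : {v : ℕ // ∃ m, v = f m u₀}), (k • p).1 = f k p.1 := fun _ _ => rfl
  refine ⟨{v : ℕ // ∃ m, v = f m u₀}, inferInstance, i,
    { e := ⟨u₀, 1, (hf.1 u₀).symm⟩
      a := a
      b := b
      gen := by
        rintro ⟨v, m, hm⟩
        exact ⟨m, Subtype.ext hm.symm⟩
      A := {p | ∃ m : M, m • (a • (⟨u₀, 1, (hf.1 u₀).symm⟩ : {v : ℕ // ∃ m, v = f m u₀})) = p}
      B := {p | ∃ m : M, m • (b • (⟨u₀, 1, (hf.1 u₀).symm⟩ : {v : ℕ // ∃ m, v = f m u₀})) = p}
      hA := fun p => Iff.rfl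
      hB := fun p => Iff.rfl
      aB := by
        rintro ⟨m, hm⟩
        exact hab m (congrArg Subtype.val hm)
      bA := by
        rintro ⟨m, hm⟩
        exact hba m (congrArg Subtype.val hm) }, Subtype.val, Subtype.val_injective, hs,
    fun p => p.2⟩

end pce

variable {ι κ : Type}

/-- the equations satisfied by `u` -/
def Eqs1 (x : Alg ι κ) (u : ℕ) : Set (List ι × List ι) := {p | wv x.1 p.1 u = wv x.1 p.2 u}

/-- the class given by the family `K` -/
def Loc (κ : Type) (K : Set (Set (List ι × List ι))) : Set (Alg ι κ) := {x | ∀ u, Eqs1 x u ∈ K}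

/-- the sets of equations of the elements which can be reached from `u₀` -/
def Ko (x₀ : Alg ι κ) (u₀ : ℕ) : Set (Set (List ι × List ι)) := {E | ∃ w, E = Eqs1 x₀ (wv x₀.1 w u₀)}

theorem eqs1_iso {x y : Alg ι κ} {σ : Equiv.Perm ℕ} (h : ∀ i u, y.1 i (σ u) = σ (x.1 i u)) (u : ℕ) :
    Eqs1 y (σ u) = Eqs1 x u := by
  ext ⟨w, w'⟩
  show wv y.1 w (σ u) = wv y.1 w' (σ u) ↔ wv x.1 w u = wv x.1 w' u
  rw [wv_iso h, wv_iso h, EmbeddingLike.apply_eq_iff_eq]

theorem loc_inv {K : Set (Set (List ι × List ι))} {x y : Alg ι κ} (h : IsoG x y)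
    (hx : x ∈ Loc κ K) : y ∈ Loc κ K := by
  obtain ⟨σ, h1, -⟩ := h
  intro u
  have h2 := eqs1_iso h1 (σ.symm u)
  rw [Equiv.apply_symm_apply] at h2
  rw [h2]
  exact hx _

theorem eqs1_closed (E : Set (List ι × List ι)) (u : ℕ) :
    IsClosed {x : Alg ι κ | Eqs1 x u = E} := by
  have e : {x : Alg ι κ | Eqs1 x u = E} =
      ⋂ p : List ι × List ι, {x : Alg ι κ | wv x.1 p.1 u = wv x.1 p.2 u ↔ p ∈ E} := by
    ext x
    rw [mem_iInter]
    exact Set.ext_iff
  rw [e]
  refine isClosed_iInter fun p => ?_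
  have h1 : Continuous fun x : Alg ι κ => (wv x.1 p.1 u, wv x.1 p.2 u) :=
    (wv_cont _ _).prodMk (wv_cont _ _)
  exact (isClosed_discrete {q : ℕ × ℕ | q.1 = q.2 ↔ p ∈ E}).preimage h1

theorem lcx_meas [Countable ι] (x₀ : Alg ι κ) (u₀ : ℕ) :
    @MeasurableSet (Alg ι κ) (borel (Alg ι κ)) (Loc κ (Ko x₀ u₀)) := by
  borelize (Alg ι κ)
  have e : Loc κ (Ko x₀ u₀) =
      ⋂ u, ⋃ w : List ι, {x : Alg ι κ | Eqs1 x u = Eqs1 x₀ (wv x₀.1 w u₀)} := by
    ext x
    simp only [Loc, Ko, mem_setOf_eq, mem_iInter, mem_iUnion]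
  rw [e]
  exact MeasurableSet.iInter fun u => MeasurableSet.iUnion fun w => (eqs1_closed _ u).measurableSet

/-- the matrix of an algebra, with one colour -/
noncomputable def mt (k₀ : κ) (x : Alg ι κ) : Mx (Option (FreeMonoid ι) → Bool) := fun u v o =>
  o.elim (decide (u = v) && x.2 k₀ u) fun m => decide (fm x m u = v)

/-- the matrices of the members of `C` with all colours equal -/
def MtK (k₀ : κ) (C : Set (Alg ι κ)) : Set (Mx (Option (FreeMonoid ι) → Bool)) :=
  {y | ∃ x ∈ C, (∀ k u, x.2 k u = x.2 k₀ u) ∧ y = mt k₀ x}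

theorem mt_cont (k₀ : κ) : Continuous (mt (ι := ι) k₀) := by
  refine continuous_pi fun u => continuous_pi fun v => continuous_pi fun o => ?_
  cases o with
  | none =>
    have h1 : Continuous fun x : Alg ι κ => x.2 k₀ u := by fun_prop
    exact (continuous_of_discreteTopology (f := fun t : Bool => decide (u = v) && t)).comp h1
  | some m =>
    have h1 : Continuous fun x : Alg ι κ => fm x m u := wv_cont _ _
    exact (continuous_of_discreteTopology (f := fun w : ℕ => decide (w = v))).comp h1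

theorem dich_mtk [Countable ι] [Countable κ] (k₀ : κ) {C : Set (Alg ι κ)}
    (hC : @MeasurableSet (Alg ι κ) (borel (Alg ι κ)) C) (hCi : ∀ x y, IsoG x y → x ∈ C → y ∈ C)
    (h : SVg C) : Pool.H63.MQ.Dich IsoM (MtK k₀ C) := by
  haveI hpol : PolishSpace (Alg ι κ) := alg_polish
  have hD : Pool.H63.MQ.Dich IsoG C := by
    intro B hB hinv
    rcases h (B ∩ C) inter_subset_right
      (@MeasurableSet.inter _ (borel (Alg ι κ)) _ _ hB hC)
      (fun x y hxy hx => ⟨hinv x y hxy hx.1, hCi x y hxy hx.2⟩) with ⟨D, hD, h1⟩ | ⟨P, h1, h2, h3, h4⟩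
    · exact Or.inl ⟨D, hD, fun x hx hxV => h1 x ⟨hx, hxV⟩⟩
    · exact Or.inr ⟨P, h1, h2, fun x hx => (h3 hx).1, h4⟩
  refine Pool.H63.MQ.Dich.push (Y := Alg ι κ) (E' := IsoG) isoM_equiv (mt k₀) (mt_cont k₀)
    (L := {x : Alg ι κ | ∀ k u, x.2 k u = x.2 k₀ u}) ?_ ?_ ?_ hD ?_
  · have hc : IsClosed {x : Alg ι κ | ∀ k u, x.2 k u = x.2 k₀ u} := by
      have e : {x : Alg ι κ | ∀ k u, x.2 k u = x.2 k₀ u} =
          ⋂ k, ⋂ u, {x : Alg ι κ | x.2 k u = x.2 k₀ u} := by
        ext x
        simp only [mem_setOf_eq, mem_iInter]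
      rw [e]
      refine isClosed_iInter fun k => isClosed_iInter fun u => isClosed_eq ?_ ?_
      · fun_prop
      · fun_prop
    borelize (Alg ι κ)
    exact hc.measurableSet
  · rintro x y ⟨σ, -, h2⟩ hx k u
    have h3 := h2 k (σ.symm u)
    have h4 := h2 k₀ (σ.symm u)
    rw [Equiv.apply_symm_apply] at h3 h4
    rw [h3, h4]
    exact hx k _
  · intro x hx y hy
    constructor
    · rintro ⟨σ, h1, h2⟩
      refine ⟨σ, fun u v => ?_⟩
      funext o
      cases o with
      | none =>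
        show (decide (σ u = σ v) && y.2 k₀ (σ u)) = (decide (u = v) && x.2 k₀ u)
        rw [h2]
        simp only [EmbeddingLike.apply_eq_iff_eq]
      | some m =>
        show decide (wv y.1 (FreeMonoid.toList m) (σ u) = σ v) = decide (wv x.1 (FreeMonoid.toList m) u = v)
        rw [wv_iso h1]
        simp only [EmbeddingLike.apply_eq_iff_eq]
    · rintro ⟨σ, h1⟩
      refine ⟨σ, fun i u => ?_, fun k u => ?_⟩
      · have h2 := congrFun (h1 u (x.1 i u)) (some (FreeMonoid.of i))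
        have h3 : decide (y.1 i (σ u) = σ (x.1 i u)) = decide (x.1 i u = x.1 i u) := h2
        simpa using h3
      · have h2 := congrFun (h1 u u) none
        have h3 : (decide (σ u = σ u) && y.2 k₀ (σ u)) = (decide (u = u) && x.2 k₀ u) := h2
        rw [decide_eq_true rfl, decide_eq_true rfl, Bool.true_and, Bool.true_and] at h3
        rw [hy, hx, h3]
  · rintro y ⟨x, hx, h1, rfl⟩
    exact ⟨x, hx, h1, isoM_equiv.refl _⟩

variable {P : Type} [MulAction (FreeMonoid ι) P] {c : Pce (FreeMonoid ι) P}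

theorem mat_mem_loc (k₀ : κ) {x₀ : Alg ι κ} {u₀ : ℕ} {j : P → ℕ} (hj : Injective j)
    (h1 : ∀ (m : FreeMonoid ι) p, j (m • p) = fm x₀ m (j p)) (h2 : ∀ p, ∃ m, j p = fm x₀ m u₀) {x : Gx}
    (hx : x ∈ Gr3) {g : ℕ → Qz P} (hg : (labZ c).Val x g) :
    (labZ c).mat x g ∈ MtK k₀ (Loc κ (Ko x₀ u₀)) := by
  classical
  obtain ⟨hv, hinj, hpos⟩ := posZ hg
  choose f hf using fun (i : ι) n => hpos _ (vz_bc hx (hv n) (FreeMonoid.of i))
  let X : Alg ι κ := (f, fun _ n => decide (Cz c (g n)))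
  have hX : ∀ (w : List ι) (n : ℕ), g (wv X.1 w n) = bc c (FreeMonoid.ofList w) (g n) := by
    intro w n
    obtain ⟨U, V, p, -, hp⟩ := (vz_jo c hx).1 (hv n)
    induction w with
    | nil =>
      show g n = bc c 1 (g n)
      rw [hp, bc_jo, one_smul]
    | cons i w ih =>
      show g (f i (wv X.1 w n)) = bc c (FreeMonoid.of i * FreeMonoid.ofList w) (g n)
      rw [hf, ih, hp, bc_jo, bc_jo, bc_jo, mul_smul]
  refine ⟨X, fun v => ?_, fun _ _ => rfl, ?_⟩
  · obtain ⟨U, V, p, -, hp⟩ := (vz_jo c hx).1 (hv v)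
    obtain ⟨m, hm⟩ := h2 p
    refine ⟨FreeMonoid.toList m, ?_⟩
    ext ⟨w, w'⟩
    show wv X.1 w v = wv X.1 w' v ↔ wv x₀.1 w (wv x₀.1 (FreeMonoid.toList m) u₀) =
      wv x₀.1 w' (wv x₀.1 (FreeMonoid.toList m) u₀)
    have e1 : wv x₀.1 (FreeMonoid.toList m) u₀ = j p := hm.symm
    rw [e1, ← hinj.eq_iff, hX, hX, hp, bc_jo, bc_jo]
    have e2 : ∀ w : List ι, wv x₀.1 w (j p) = j (FreeMonoid.ofList w • p) := fun w =>
      (h1 (FreeMonoid.ofList w) p).symm
    rw [e2, e2, hj.eq_iff]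
    constructor
    · intro h
      exact ((jo_eq c).1 h).1
    · intro h
      rw [h]
  · funext u v o
    cases o with
    | none =>
      rw [Bool.eq_iff_iff, matZ_none]
      show _ ↔ (decide (u = v) && decide (Cz c (g u))) = true
      simp
    | some m =>
      rw [Bool.eq_iff_iff, matZ_some]
      show _ ↔ decide (wv X.1 (FreeMonoid.toList m) u = v) = true
      rw [decide_eq_true_eq, ← hinj.eq_iff, hX]
      exact Iff.rfl

private theorem polish_bool (J : Type) [Countable J] : PolishSpace (J → Bool) :=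
  { toSecondCountableTopology := inferInstance
    toIsCompletelyMetrizableSpace := TopologicalSpace.IsCompletelyMetrizableSpace.pi_countable }

/-- the wild side -/
theorem wild_loc [Countable ι] [Countable κ] [Nonempty κ] {K : Set (Set (List ι × List ι))}
    {x₀ : Alg ι κ} (hx : x₀ ∈ Loc κ K) (hU : ¬ Uni x₀) (h : SVg (Loc κ K)) : Q1 := by
  unfold Uni at hU
  push Not at hU
  obtain ⟨u₀, v, w, hv, hw, h1, h2⟩ := hU
  obtain ⟨a, rfl⟩ := wv_of_reach hv
  obtain ⟨b, rfl⟩ := wv_of_reach hw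
  haveI : Countable (FreeMonoid ι) := inferInstanceAs (Countable (List ι))
  obtain ⟨k₀⟩ := ‹Nonempty κ›
  have hsub : Loc κ (Ko x₀ u₀) ⊆ Loc κ K := by
    intro x hx' v
    obtain ⟨w, hw⟩ := hx' v
    rw [hw]
    exact hx _
  obtain ⟨P, hPc, i, c, j, hj1, hj2, hj3⟩ := exists_pce (fm_acts x₀) (u₀ := u₀)
    (a := FreeMonoid.ofList a) (b := FreeMonoid.ofList b)
    (fun m hm => h2 (by
      have h3 := reach_wv x₀ (FreeMonoid.toList m) (wv x₀.1 b u₀)
      have h4 : wv x₀.1 (FreeMonoid.toList m) (wv x₀.1 b u₀) = wv x₀.1 a u₀ := hm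
      rwa [h4] at h3))
    (fun m hm => h1 (by
      have h3 := reach_wv x₀ (FreeMonoid.toList m) (wv x₀.1 a u₀)
      have h4 : wv x₀.1 (FreeMonoid.toList m) (wv x₀.1 a u₀) = wv x₀.1 b u₀ := hm
      rwa [h4] at h3))
  have hq : Countable (Qz P) := countable_qz
  haveI : Countable (Option (FreeMonoid ι)) := inferInstance
  have hp1 : PolishSpace (Option (FreeMonoid ι) → Bool) := polish_bool _
  have hp2 : PolishSpace (Fin 1 → Bool) := polish_bool (Fin 1)
  have hp3 : PolishSpace Gx := inferInstance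
  have hD := dich_mtk k₀ (lcx_meas x₀ u₀) (fun x y hxy hx => loc_inv hxy hx) (h.mono hsub)
  apply q1_of_gr3
  refine lab_dich (labZ_ok c) (K := MtK k₀ (Loc κ (Ko x₀ u₀)))
    (fun x hx g hg => mat_mem_loc k₀ hj1 hj2 hj3 hx hg) ?_ hD
  intro x y
  constructor
  · rintro ⟨σ, hσ⟩
    refine ⟨σ, ?_⟩
    show (fun u v => x (σ⁻¹ u) (σ⁻¹ v)) = y
    funext u v
    have h1 := hσ (σ⁻¹ u) (σ⁻¹ v)
    simp only [← Equiv.Perm.mul_apply, mul_inv_cancel, Equiv.Perm.one_apply] at h1
    exact h1.symm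
  · rintro ⟨σ, rfl⟩
    refine ⟨σ, fun u v => ?_⟩
    show x (σ⁻¹ (σ u)) (σ⁻¹ (σ v)) = x u v
    simp only [← Equiv.Perm.mul_apply, inv_mul_cancel, Equiv.Perm.one_apply]

/-- **THEOREM R for classes given by the one-generated subalgebras, with a colour.** -/
theorem loc_dich [Countable ι] [Countable κ] [Nonempty κ] (K : Set (Set (List ι × List ι))) :
    SVg (Loc κ K) ↔ (∀ x ∈ Loc κ K, Uni x) ∨ Q1 := by
  constructor
  · intro h
    by_cases hU : ∀ x ∈ Loc κ K, Uni x
    · exact Or.inl hU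
    · right
      push Not at hU
      obtain ⟨x, hx, hxU⟩ := hU
      exact wild_loc hx hxU h
  · rintro (h | h)
    · exact (tame_alg ι κ).mono fun x hx => h x hx
    · exact svg_of_q1 h _

end Pool.H87.MS
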