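import Pool.Agent.H87.MS.Df
import Pool.Agent.H55.RT.RepA
import Pool.Agent.H62.VT.Morley

/-!
# THEOREM R, (2'): a member of `B` has only finitely many cones in big places

`(A, t)` a member of `B` with a finite tuple, `θ ≤ b < ω₁`: there is no infinite sequence of pairwise
different cones over `t` which are all big at level `b`.

PROOF. Suppose `y i` is such a sequence. Choose cones `c i = (N i, s i, x i)` of members of `B`, equivalent at
level `b` to the cone of `y i`, not isomorphic to any cone of `(A, t)` and not to `c j`, `j ≠ i` (bigness).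
Let `μ < ω₁` be a level at which these non-isomorphisms are seen. For a set `S` of numbers let `A_S` be `A`
with the cone of `y i` replaced by `c i` for `i ∈ S`. `A_S ∈ B`. `i ∈ S` iff some cone of `(A_S, t)` is
equivalent at level `μ` to `c i`. So the `(A_S, t)` are pairwise inequivalent at level `μ + 1`, but a
countable level has only countably many classes (`morley`).
-/

set_option autoImplicit false

namespace Pool.H87.MS

open Set Ordinal Pool.H62.VT Pool.H55.RT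

variable {Mo : Type} [Monoid Mo] [Encodable Mo]

/-- one more cone which is not isomorphic to given ones -/
private theorem new_cone {B : Set (Str a2)} {ι : Type} {b : Ordinal.{0}} {A : Str a2} (hA : A ∈ B)
    (t : ι → ℕ) (y : ℕ) (hbig : ¬ Small Mo B b A t y) (F : Finset (Str a2 × (ι → ℕ) × ℕ))
    (hF : ∀ c ∈ F, c.1 ∈ B ∧ c.2.2 ∉ Gn Mo c.1 c.2.1) :
    ∃ c : Str a2 × (ι → ℕ) × ℕ, c.1 ∈ B ∧ c.2.2 ∉ Gn Mo c.1 c.2.1 ∧
      CE Mo b A t y c.1 c.2.1 c.2.2 ∧ (∀ z, z ∉ Gn Mo A t → ¬ CI Mo c.1 c.2.1 c.2.2 A t z) ∧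
      ∀ d ∈ F, ¬ CI Mo c.1 c.2.1 c.2.2 d.1 d.2.1 d.2.2 := by
  classical
  by_contra hcon
  apply hbig
  refine ⟨(fun z : ℕ => ((A, t, z) : Str a2 × (ι → ℕ) × ℕ)) '' {z | z ∉ Gn Mo A t} ∪ (F : Set _),
    ((Set.to_countable _).image _).union F.countable_toSet, ?_, fun A' hA' t' y' hy' hce => ?_⟩
  · rintro c (⟨z, hz, rfl⟩ | hc)
    · exact ⟨hA, hz⟩
    · exact hF c hc
  · by_contra hno
    apply hcon
    refine ⟨(A', t', y'), hA', hy', hce, fun z hz hci => hno ⟨(A, t, z), Or.inl ⟨z, hz, rfl⟩, hci⟩,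
      fun d hd hci => hno ⟨d, Or.inr hd, hci⟩⟩

theorem big_finite {B : Set (Str a2)} {θ : Ordinal.{0}} (hS : Std B θ) (hM : ∀ A ∈ B, MS Mo A)
    {ι : Type} [Finite ι] {b : Ordinal.{0}} (hb : θ ≤ b) (_hb1 : b < ω₁) {A : Str a2} (hA : A ∈ B)
    (t : ι → ℕ) (y : ℕ → ℕ) (hy : ∀ i, y i ∉ Gn Mo A t)
    (hn : ∀ i j, i ≠ j → ¬ Nr (ac (Mo := Mo) A) (Gn Mo A t) (y i) (y j))
    (hbig : ∀ i, ¬ Small Mo B b A t (y i)) : False := by
  classical
  -- the sequence of new cones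
  obtain ⟨g, hg1, hg2⟩ := exists_seq_of_forall_finset_exists
    (P := fun c : ℕ × (Str a2 × (ι → ℕ) × ℕ) => c.2.1 ∈ B ∧ c.2.2.2 ∉ Gn Mo c.2.1 c.2.2.1 ∧
      CE Mo b A t (y c.1) c.2.1 c.2.2.1 c.2.2.2 ∧
      ∀ z, z ∉ Gn Mo A t → ¬ CI Mo c.2.1 c.2.2.1 c.2.2.2 A t z)
    (r := fun c d => c.1 < d.1 ∧ ¬ CI Mo d.2.1 d.2.2.1 d.2.2.2 c.2.1 c.2.2.1 c.2.2.2)
    (fun F hF => by
      obtain ⟨c, h1, h2, h3, h4, h5⟩ := new_cone hA t (y (F.sup Prod.fst + 1)) (hbig _)
        (F.image Prod.snd) (by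
          intro c hc
          obtain ⟨d, hd, rfl⟩ := Finset.mem_image.1 hc
          exact ⟨(hF d hd).1, (hF d hd).2.1⟩)
      refine ⟨(F.sup Prod.fst + 1, c), ⟨h1, h2, h3, h4⟩, fun d hd => ⟨?_, ?_⟩⟩
      · exact Nat.lt_succ_of_le (Finset.le_sup (f := Prod.fst) hd)
      · exact h5 d.2 (Finset.mem_image.2 ⟨d, hd, rfl⟩))
  have hci : ∀ m n, m ≠ n →
      ¬ CI Mo (g m).2.1 (g m).2.2.1 (g m).2.2.2 (g n).2.1 (g n).2.2.1 (g n).2.2.2 := by
    intro m n hmn h
    rcases lt_or_gt_of_ne hmn with h1 | h1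
    · exact (hg2 m n h1).2 h.symm
    · exact (hg2 n m h1).2 h
  have hidx : ∀ m n, m ≠ n → (g m).1 ≠ (g n).1 := by
    intro m n hmn
    rcases lt_or_gt_of_ne hmn with h1 | h1
    · exact (hg2 m n h1).1.ne
    · exact (hg2 n m h1).1.ne'
  -- the level
  have hlev : ∀ n, ∃ κ : Ordinal.{0}, κ < ω₁ ∧ ∀ (A' : Str a2) (t' : ι → ℕ) (y' : ℕ), MS Mo A' →
      CE Mo κ (g n).2.1 (g n).2.2.1 (g n).2.2.2 A' t' y' →
        CI Mo (g n).2.1 (g n).2.2.1 (g n).2.2.2 A' t' y' := by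
    intro n
    obtain ⟨κ, h1, h2⟩ := exists_detc Mo (g n).2.1 (hM _ (hg1 n).1) (g n).2.2.1 (g n).2.2.2
    exact ⟨κ, h1, fun A' t' y' hA' => (h2 A' t' y' hA').1⟩
  choose κ hκ1 hκ2 using hlev
  obtain ⟨μ, hμ, hμκ⟩ := exists_bound κ hκ1
  have hdet : ∀ n (A' : Str a2) (t' : ι → ℕ) (y' : ℕ), MS Mo A' →
      CE Mo μ (g n).2.1 (g n).2.2.1 (g n).2.2.2 A' t' y' →
        CI Mo (g n).2.1 (g n).2.2.1 (g n).2.2.2 A' t' y' :=
    fun n A' t' y' hA' h => hκ2 n A' t' y' hA' (CEq.level h (hμκ n))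
  -- the structures `A_S`
  have hrep : ∀ S : Set ℕ, ∃ A' ∈ B, ∀ n, n ∈ S ↔ ∃ z, z ∉ Gn Mo A' t ∧
      CE Mo μ (g n).2.1 (g n).2.2.1 (g n).2.2.2 A' t z := by
    intro S
    let d : ℕ → Str a2 × (ι → ℕ) × ℕ := fun n => if n ∈ S then (g n).2 else (A, t, y (g n).1)
    have hd1 : ∀ n, n ∈ S → d n = (g n).2 := fun n hn => if_pos hn
    have hd2 : ∀ n, n ∉ S → d n = (A, t, y (g n).1) := fun n hn => if_neg hn
    obtain ⟨A', hA', h1, h2⟩ := rep_aux hS hM hb hA t (fun n => y (g n).1) (fun n => hy _)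
      (fun i j hij => hn _ _ (hidx i j hij)) d (fun n => by
        by_cases h : n ∈ S
        · rw [hd1 n h]
          exact (hg1 n).1
        · rw [hd2 n h]
          exact hA) (fun n => by
        by_cases h : n ∈ S
        · rw [hd1 n h]
          exact (hg1 n).2.2.1
        · rw [hd2 n h]
          exact CE.refl b A t _)
    refine ⟨A', hA', fun n => ⟨fun h => ?_, ?_⟩⟩
    · obtain ⟨z, hz, hci'⟩ := h1 n
      rw [hd1 n h] at hci'
      exact ⟨z, hz, hci'.ce μ⟩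
    · rintro ⟨z, hz, hce⟩
      have h3 := hdet n A' t z (hM A' hA') hce
      rcases h2 z hz with ⟨m, hm⟩ | ⟨hz', hm⟩
      · by_cases h : m ∈ S
        · rw [hd1 m h] at hm
          by_cases hnm : n = m
          · rw [hnm]
            exact h
          · exact absurd (h3.trans hm.symm) (hci n m hnm)
        · rw [hd2 m h] at hm
          exact absurd (h3.trans hm.symm) ((hg1 n).2.2.2 _ (hy _))
      · exact absurd (h3.trans hm.symm) ((hg1 n).2.2.2 _ hz')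
  choose AS hAS1 hAS2 using hrep
  -- countably many classes
  have hone : (1 : Ordinal.{0}) < ω₁ := lt_trans one_lt_omega0 omega_lt_omega_one
  obtain ⟨C, hC1, -, hC3⟩ := morley B hS.meas hS.noPerf (lv (μ + 1))
    (lv_lt (add_lt_omega_one hμ hone)) (range t) (finite_range t)
  choose r hr1 hr2 using fun S : Set ℕ => hC3 (AS S) (hAS1 S)
  have hinj : Function.Injective fun S : Set ℕ => (⟨r S, hr1 S⟩ : C) := by
    have key : ∀ S T : Set ℕ, r S = r T → S ⊆ T := by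
      intro S T hST n hn
      have hE : E (μ + 1) (AS S) t (AS T) t := by
        have h1 := hr2 S
        have h2 := (hr2 T).symm
        rw [hST] at h1
        refine (h1.trans h2).mono ?_
        rintro _ ⟨i, rfl⟩
        exact ⟨t i, ⟨⟨i, rfl⟩, rfl⟩, ⟨⟨i, rfl⟩, rfl⟩⟩
      obtain ⟨z, hz, hce⟩ := (hAS2 S n).1 hn
      obtain ⟨z', hz', hcp, -⟩ := E.cone (Mo := Mo) (hM _ (hAS1 S)) (hM _ (hAS1 T)) hE hz
      exact (hAS2 T n).2 ⟨z', hz', hce.trans hcp.ce⟩
    intro S T hST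
    have h := congrArg Subtype.val hST
    exact Subset.antisymm (key S T h) (key T S h.symm)
  haveI : Countable C := hC1.to_subtype
  obtain ⟨e, he⟩ := exists_injective_nat C
  exact Function.cantor_injective _ (he.comp hinj)

end Pool.H87.MS
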