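import Pool.Agent.H55.RT.Defs
import Pool.Agent.H22.EN.Vx

/-!
# THEOREM R: small and big cones; the two forms of the levels agree

`Small Mo B b A t y`: the class (level `b`) of the closed cone of `y` over `t`, the cut being named by `t`,
contains only countably many isomorphism types of cones of members of `B`. Otherwise the cone is BIG.
-/

set_option autoImplicit false

namespace Pool.H87.MS

open Set Ordinal Pool.H62.VT Pool.H55.RT

/-- the levels of `H22/EN` and of `H55/RT` agree -/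
theorem lv_eq (b : Ordinal.{0}) : Pool.H22.EN.lv b = lv b := rfl

/-- the equivalences of `H22/EN` and of `H55/RT` agree -/
theorem eb_iff {a : ℕ → ℕ} {ι : Type} {b : Ordinal.{0}} {A A' : Str a} {t t' : ι → ℕ} :
    Pool.H22.EN.Eb b A t A' t' ↔ E b A t A' t' := Iff.rfl

variable (Mo : Type) [Monoid Mo] [Encodable Mo]

/-- the class of the cone of `y` over `t` contains only countably many types -/
def Small {ι : Type} (B : Set (Str a2)) (b : Ordinal.{0}) (A : Str a2) (t : ι → ℕ) (y : ℕ) : Prop :=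
  ∃ C : Set (Str a2 × (ι → ℕ) × ℕ), C.Countable ∧ (∀ c ∈ C, c.1 ∈ B ∧ c.2.2 ∉ Gn Mo c.1 c.2.1) ∧
    ∀ A' ∈ B, ∀ (t' : ι → ℕ) (y' : ℕ), y' ∉ Gn Mo A' t' → CE Mo b A t y A' t' y' →
      ∃ c ∈ C, CI Mo A' t' y' c.1 c.2.1 c.2.2

end Pool.H87.MS
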