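import Pool.Agent.H87.MS.Df
import Pool.Agent.H22.EN.Vz
import Pool.Agent.H76.RT.F
import Pool.Agent.H62.VT.Main

/-!
# THEOREM R: assembly for structures with binary relations

`types_of_tin`: from a countable set of structures on subsets of `ℕ` to a countable set of structures.
`str_dich`: the dichotomy for Borel invariant sets of `MS`-structures.
-/

set_option autoImplicit false

namespace Pool.H87.MS

open Set Ordinal Pool.H62.VT Pool.H55.RT

/-- a countable set of representatives inside `B` -/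
theorem types_of_tin {a : ℕ → ℕ} {B : Set (Str a)}
    (h : ∃ C : Set (Str a × Set ℕ), C.Countable ∧ ∀ M ∈ B, Pool.H62.VS.TIn C M univ) :
    ∃ D : Set (Str a), D.Countable ∧ ∀ M ∈ B, ∃ c ∈ D, ∃ σ : Equiv.Perm ℕ,
      ∀ (n : ℕ) (t : Fin (a n) → ℕ), c n (fun i => σ (t i)) = M n t := by
  classical
  obtain ⟨C, hC, h1⟩ := h
  let F : Str a × Set ℕ → Str a := fun c =>
    if h : ∃ M ∈ B, Pool.H62.VS.Eqv M univ c.1 c.2 then h.choose else fun _ _ => false
  refine ⟨F '' C, hC.image F, fun M hM => ?_⟩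
  obtain ⟨c, hc, g, hg, hgf⟩ := h1 M hM
  have hex : ∃ M ∈ B, Pool.H62.VS.Eqv M univ c.1 c.2 := ⟨M, hM, g, hg, hgf⟩
  obtain ⟨-, g', hg', hgf'⟩ := hex.choose_spec
  have hF : F c = hex.choose := by
    simp only [F]
    rw [dif_pos hex]
  refine ⟨F c, ⟨c, hc, rfl⟩, ?_⟩
  rw [hF]
  let e : ℕ ≃ c.2 := Equiv.ofBijective (fun u => ⟨g u, hg.mapsTo (mem_univ u)⟩)
    ⟨fun u v huv => hg.injOn (mem_univ u) (mem_univ v) (congrArg Subtype.val huv), fun v => by
      obtain ⟨u, -, hu⟩ := hg.surjOn v.2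
      exact ⟨u, Subtype.ext hu⟩⟩
  let e' : ℕ ≃ c.2 := Equiv.ofBijective (fun u => ⟨g' u, hg'.mapsTo (mem_univ u)⟩)
    ⟨fun u v huv => hg'.injOn (mem_univ u) (mem_univ v) (congrArg Subtype.val huv), fun v => by
      obtain ⟨u, -, hu⟩ := hg'.surjOn v.2
      exact ⟨u, Subtype.ext hu⟩⟩
  refine ⟨e.trans e'.symm, fun n t => ?_⟩
  have hk : ∀ u, g' ((e.trans e'.symm) u) = g u := by
    intro u
    have h2 : e' (e'.symm (e u)) = e u := e'.apply_symm_apply (e u)
    exact congrArg Subtype.val h2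
  rw [← hgf' n _ (fun _ => mem_univ _), ← hgf n t (fun _ => mem_univ _)]
  exact congrArg (c.1 n) (funext fun i => hk (t i))

variable (Mo : Type) [Monoid Mo] [Encodable Mo]

/-- **The tame side.** `B` without perfect set has only countably many types. From `exists_big` (`H22/EN/Vz`)
and the countability of `Ext v` (`H76/RT`). -/
theorem tame {B : Set (Str a2)} {θ : Ordinal.{0}} (hS : Std B θ) (hM : ∀ A ∈ B, MS Mo A) :
    ∃ D : Set (Str a2), D.Countable ∧ ∀ M ∈ B, ∃ c ∈ D, ∃ σ : Equiv.Perm ℕ,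
      ∀ (n : ℕ) (t : Fin (a2 n) → ℕ), c n (fun i => σ (t i)) = M n t := by
  refine types_of_tin ?_
  by_contra h
  obtain ⟨n, v, hv⟩ := Pool.H22.EN.exists_big hS h
  exact hv (Pool.H76.RT.F_final hS hM v)

/-- the dichotomy for structures with binary relations -/
theorem str_dich (B : Set (Str a2)) (hB : @MeasurableSet (Str a2) (borel (Str a2)) B)
    (hinv : ∀ x y : Str a2, (∃ σ : Equiv.Perm ℕ, ∀ (n : ℕ) (t : Fin (a2 n) → ℕ),
      y n (fun i => σ (t i)) = x n t) → x ∈ B → y ∈ B) (hM : ∀ A ∈ B, MS Mo A) :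
    (∃ C : Set (Str a2), C.Countable ∧ ∀ x ∈ B, ∃ c ∈ C, ∃ σ : Equiv.Perm ℕ,
        ∀ (n : ℕ) (t : Fin (a2 n) → ℕ), c n (fun i => σ (t i)) = x n t) ∨
      (∃ P : Set (Str a2), P.Nonempty ∧ Perfect P ∧ P ⊆ B ∧
        ∀ x ∈ P, ∀ y ∈ P, (∃ σ : Equiv.Perm ℕ, ∀ (n : ℕ) (t : Fin (a2 n) → ℕ),
          y n (fun i => σ (t i)) = x n t) → x = y) := by
  by_cases hP : NoPerf B
  · left
    obtain ⟨θ, hS⟩ := exists_std B hB hinv hP
    exact tame Mo hS hM
  · right
    unfold NoPerf at hP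
    push Not at hP
    obtain ⟨k, φ, h1, h2, h3⟩ := hP
    obtain ⟨P, hP1, hP2, hP3, hP4⟩ := Pool.H22.VC.perfect_of_family a2 k φ h1
      (fun s s' h => h3 s s' h)
    refine ⟨P, hP1, hP2, fun x hx => ?_, hP4⟩
    obtain ⟨s, rfl⟩ := hP3 x hx
    exact h2 s

end Pool.H87.MS
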