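import Pool.Agent.H55.RT.Defs
import Pool.Agent.H62.VT.Morley

/-!
# THEOREM R: coding of families of functions and predicates by structures with binary relations

`XX Mo`: a family of functions `ℕ → ℕ` indexed by `Mo` and a sequence of predicates on `ℕ`. `cod x` is the
structure whose relation `2 (encode m)` is the graph of the function with index `m` and whose relation
`2 j + 1` is the predicate number `j` on the diagonal. `cod` is an embedding of topological spaces which
respects isomorphisms.
-/

set_option autoImplicit false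

namespace Pool.H87.MS

open Set Ordinal Pool.H62.VT Pool.H55.RT

/-- a family of functions and a sequence of predicates on `ℕ` -/
abbrev XX (Mo : Type) : Type := (Mo → ℕ → ℕ) × (ℕ → ℕ → Bool)

/-- isomorphism -/
def IsoX {Mo : Type} (x y : XX Mo) : Prop :=
  ∃ σ : Equiv.Perm ℕ, (∀ m u, y.1 m (σ u) = σ (x.1 m u)) ∧ ∀ j u, y.2 j (σ u) = x.2 j u

variable {Mo : Type} [Encodable Mo]

/-- the coding -/
def cod (x : XX Mo) : Str a2 := fun n t =>
  if n % 2 = 0 then
    ((Encodable.decode (n / 2) : Option Mo).elim false fun m => decide (t 1 = x.1 m (t 0)))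
  else decide (t 0 = t 1) && x.2 (n / 2) (t 0)

theorem cod_even (x : XX Mo) (k : ℕ) (t : Fin 2 → ℕ) : cod x (2 * k) t =
    (Encodable.decode k : Option Mo).elim false fun m => decide (t 1 = x.1 m (t 0)) := by
  unfold cod
  have h1 : 2 * k % 2 = 0 := by omega
  have h2 : 2 * k / 2 = k := by omega
  rw [if_pos h1, h2]

theorem cod_fi (x : XX Mo) (m : Mo) (t : Fin 2 → ℕ) :
    cod x (fi m) t = decide (t 1 = x.1 m (t 0)) := by
  unfold fi
  rw [cod_even, Encodable.encodek]
  rfl

theorem cod_odd (x : XX Mo) (k : ℕ) (t : Fin 2 → ℕ) : cod x (2 * k + 1) t =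
    (decide (t 0 = t 1) && x.2 k (t 0)) := by
  unfold cod
  have h1 : ¬ (2 * k + 1) % 2 = 0 := by omega
  have h2 : (2 * k + 1) / 2 = k := by omega
  rw [if_neg h1, h2]

theorem ac_cod (x : XX Mo) (m : Mo) (u : ℕ) : ac (cod x) m u = x.1 m u := by
  have h : ∃ y : ℕ, cod x (fi m) (![u, y] : Fin 2 → ℕ) = true := ⟨x.1 m u, by
    rw [cod_fi]
    simp⟩
  have h2 := h.choose_spec
  unfold ac
  rw [dif_pos h]
  rw [cod_fi] at h2
  simpa using h2

theorem ms_cod [Monoid Mo] (x : XX Mo) (h1 : ∀ u, x.1 1 u = u)
    (h2 : ∀ m n u, x.1 (m * n) u = x.1 m (x.1 n u))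
    (h3 : ∀ u m n, ∃ c, x.1 m u = x.1 c (x.1 n u) ∨ x.1 n u = x.1 c (x.1 m u)) :
    MS Mo (cod x) := by
  refine ⟨fun m u v => ?_, ⟨fun u => ?_, fun m n u => ?_, fun u m n => ?_⟩, fun n u v h => ?_⟩
  · rw [cod_fi, ac_cod]
    simp
  · rw [ac_cod, h1]
  · simp only [ac_cod, h2]
  · simp only [ac_cod]
    exact h3 u m n
  · rcases Nat.even_or_odd' n with ⟨k, rfl | rfl⟩
    · rw [cod_even] at h
      cases hd : (Encodable.decode k : Option Mo) with
      | none =>
        rw [hd] at h
        simp at h
      | some m =>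
        rw [hd] at h
        refine ⟨m, ?_⟩
        rw [ac_cod]
        simpa using h
    · rw [cod_odd] at h
      refine ⟨1, ?_⟩
      rw [ac_cod, h1]
      simp only [Matrix.cons_val_zero, Matrix.cons_val_one, Bool.and_eq_true,
        decide_eq_true_eq] at h
      exact h.1.symm

theorem cod_continuous : Continuous (cod (Mo := Mo)) := by
  refine continuous_pi fun n => continuous_pi fun t => ?_
  rcases Nat.even_or_odd' n with ⟨k, rfl | rfl⟩
  · simp only [cod_even]
    cases hd : (Encodable.decode k : Option Mo) with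
    | none => exact continuous_const
    | some m =>
      have h1 : Continuous fun x : XX Mo => x.1 m (t 0) := by fun_prop
      exact (continuous_of_discreteTopology (f := fun v : ℕ => decide (t 1 = v))).comp h1
  · simp only [cod_odd]
    have h1 : Continuous fun x : XX Mo => x.2 k (t 0) := by fun_prop
    exact (continuous_of_discreteTopology (f := fun v : Bool => (decide (t 0 = t 1) && v))).comp h1

theorem cod_injective : Function.Injective (cod (Mo := Mo)) := by
  intro x y h
  apply Prod.ext
  · funext m u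
    have h1 := congrFun (congrFun h (fi m)) (![u, x.1 m u] : Fin 2 → ℕ)
    rw [cod_fi, cod_fi] at h1
    simpa using h1.symm
  · funext j u
    have h1 := congrFun (congrFun h (2 * j + 1)) (![u, u] : Fin 2 → ℕ)
    rw [cod_odd, cod_odd] at h1
    simpa using h1

private theorem le_prod (τ : TopologicalSpace (XX Mo))
    (h : ∀ (n : ℕ) (t : Fin 2 → ℕ) (b : Bool), @IsOpen _ τ {x : XX Mo | cod x n t = b}) :
    τ ≤ instTopologicalSpaceProd := by
  refine le_inf (continuous_iff_le_induced.1 ?_) (continuous_iff_le_induced.1 ?_)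
  · refine @continuous_pi (XX Mo) Mo (fun _ => ℕ → ℕ) τ _ _ fun m =>
      @continuous_pi (XX Mo) ℕ (fun _ => ℕ) τ _ _ fun u =>
      (@continuous_discrete_rng ℕ (XX Mo) τ _ _ _).2 fun v => ?_
    have e : (fun x : XX Mo => x.1 m u) ⁻¹' {v} =
        {x : XX Mo | cod x (fi m) (![u, v] : Fin 2 → ℕ) = true} := by
      ext x
      simp only [mem_preimage, mem_singleton_iff, mem_setOf_eq, cod_fi, decide_eq_true_eq,
        Matrix.cons_val_zero, Matrix.cons_val_one]
      exact eq_comm
    rw [e]
    exact h _ _ _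
  · refine @continuous_pi (XX Mo) ℕ (fun _ => ℕ → Bool) τ _ _ fun j =>
      @continuous_pi (XX Mo) ℕ (fun _ => Bool) τ _ _ fun u =>
      (@continuous_discrete_rng Bool (XX Mo) τ _ _ _).2 fun v => ?_
    have e : (fun x : XX Mo => x.2 j u) ⁻¹' {v} =
        {x : XX Mo | cod x (2 * j + 1) (![u, u] : Fin 2 → ℕ) = v} := by
      ext x
      simp only [mem_preimage, mem_singleton_iff, mem_setOf_eq, cod_odd,
        Matrix.cons_val_zero, Matrix.cons_val_one, decide_true, Bool.true_and]
    rw [e]
    exact h _ _ _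

theorem cod_inducing : Topology.IsInducing (cod (Mo := Mo)) := by
  constructor
  apply le_antisymm
  · exact continuous_iff_le_induced.1 cod_continuous
  · refine le_prod _ fun n t b => isOpen_induced_iff.2 ⟨{A : Str a2 | A n t = b}, ?_, rfl⟩
    have : Continuous (fun A : Str a2 => A n t) := by fun_prop
    exact (isOpen_discrete {b}).preimage this

theorem cod_embedding : Topology.IsEmbedding (cod (Mo := Mo)) :=
  ⟨cod_inducing, cod_injective⟩

theorem iso_cod {x y : XX Mo} : IsoX x y ↔ ∃ σ : Equiv.Perm ℕ, ∀ (n : ℕ) (t : Fin (a2 n) → ℕ),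
    cod y n (fun i => σ (t i)) = cod x n t := by
  constructor
  · rintro ⟨σ, h1, h2⟩
    refine ⟨σ, fun n t => ?_⟩
    rcases Nat.even_or_odd' n with ⟨k, rfl | rfl⟩
    · rw [cod_even, cod_even]
      cases hd : (Encodable.decode k : Option Mo) with
      | none => rfl
      | some m =>
        simp only [Option.elim_some, h1, EmbeddingLike.apply_eq_iff_eq]
    · rw [cod_odd, cod_odd]
      simp only [h2, EmbeddingLike.apply_eq_iff_eq]
  · rintro ⟨σ, h⟩
    refine ⟨σ, fun m u => ?_, fun j u => ?_⟩
    · have h1 := h (fi m) (![u, x.1 m u] : Fin 2 → ℕ)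
      rw [cod_fi, cod_fi] at h1
      have h2 : σ (x.1 m u) = y.1 m (σ u) := by simpa using h1
      exact h2.symm
    · have h1 := h (2 * j + 1) (![u, u] : Fin 2 → ℕ)
      rw [cod_odd, cod_odd] at h1
      simpa using h1

/-- every structure isomorphic to a code is a code -/
theorem cod_of_iso {x : XX Mo} {A : Str a2} {σ : Equiv.Perm ℕ}
    (h : ∀ (n : ℕ) (t : Fin (a2 n) → ℕ), A n (fun i => σ (t i)) = cod x n t) :
    ∃ y : XX Mo, A = cod y ∧ IsoX x y := by
  let y : XX Mo := (fun m u => σ (x.1 m (σ.symm u)), fun j u => x.2 j (σ.symm u))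
  have hxy : IsoX x y := ⟨σ, fun m u => by simp [y], fun j u => by simp [y]⟩
  refine ⟨y, ?_, hxy⟩
  have h2 : ∀ (n : ℕ) (t : Fin (a2 n) → ℕ), cod y n (fun i => σ (t i)) = cod x n t := by
    intro n t
    rcases Nat.even_or_odd' n with ⟨k, rfl | rfl⟩
    · rw [cod_even, cod_even]
      cases hd : (Encodable.decode k : Option Mo) with
      | none => rfl
      | some m => simp [y]
    · rw [cod_odd, cod_odd]
      simp [y]
  funext n t
  have e : t = fun i => σ (σ.symm (t i)) := by
    funext i
    simp
  rw [e, h, h2]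

end Pool.H87.MS
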