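import Pool.Agent.H87.MS.Cod

/-!
# THEOREM R: transfer of the dichotomy along embeddings of Polish spaces

`Dich E C`: every Borel `E`-invariant subset of `C` meets only countably many `E`-classes or contains a
nonempty perfect set of pairwise inequivalent elements.
-/

set_option autoImplicit false

namespace Pool.H87.MS

open Set

/-- the dichotomy for the Borel invariant subsets of `C` -/
def Dich {X : Type} [TopologicalSpace X] (E : X → X → Prop) (C : Set X) : Prop :=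
  ∀ B : Set X, B ⊆ C → @MeasurableSet X (borel X) B → (∀ x y, E x y → x ∈ B → y ∈ B) →
    (∃ D : Set X, D.Countable ∧ ∀ x ∈ B, ∃ c ∈ D, E x c) ∨
    ∃ P : Set X, P.Nonempty ∧ Perfect P ∧ P ⊆ B ∧ ∀ x ∈ P, ∀ y ∈ P, E x y → x = y

theorem perfect_preimage {X Y : Type} [TopologicalSpace X] [TopologicalSpace Y] {j : X → Y}
    (hj : Topology.IsEmbedding j) {P : Set Y} (hP : Perfect P) (hr : P ⊆ range j) :
    Perfect (j ⁻¹' P) := by
  refine ⟨hP.closed.preimage hj.continuous, fun x hx => ?_⟩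
  rw [accPt_iff_nhds]
  intro V hV
  rw [hj.nhds_eq_comap, Filter.mem_comap] at hV
  obtain ⟨U, hU, hUV⟩ := hV
  obtain ⟨y, hy, hne⟩ := (accPt_iff_nhds.1 (hP.acc _ hx)) U hU
  obtain ⟨z, rfl⟩ := hr hy.2
  exact ⟨z, ⟨hUV hy.1, hy.2⟩, fun e => hne (congrArg j e)⟩

theorem Dich.pull {X Y : Type} [TopologicalSpace X] [PolishSpace X] [TopologicalSpace Y] [T2Space Y]
    {E : X → X → Prop} {E' : Y → Y → Prop} {C : Set X} {C' : Set Y} {j : X → Y}
    (h : Dich E' C') (hj : Topology.IsEmbedding j) (hE : ∀ x y, E x y ↔ E' (j x) (j y))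
    (hr : ∀ x y', E' (j x) y' → ∃ y, y' = j y) (hC : ∀ x ∈ C, j x ∈ C') : Dich E C := by
  intro B hBC hB hinv
  have hB' : @MeasurableSet Y (borel Y) (j '' B) := by
    letI : MeasurableSpace X := borel X
    haveI : BorelSpace X := ⟨rfl⟩
    letI : MeasurableSpace Y := borel Y
    haveI : BorelSpace Y := ⟨rfl⟩
    exact MeasurableSet.image_of_continuousOn_injOn hB hj.continuous.continuousOn hj.injective.injOn
  rcases h (j '' B) (by rintro _ ⟨x, hx, rfl⟩; exact hC x (hBC hx)) hB' (by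
    rintro _ y' hxy ⟨x, hx, rfl⟩
    obtain ⟨y, rfl⟩ := hr x y' hxy
    exact ⟨y, hinv x y ((hE x y).2 hxy) hx, rfl⟩) with ⟨D, hD, h1⟩ | ⟨P, hP1, hP2, hP3, hP4⟩
  · left
    refine ⟨j ⁻¹' D, hD.preimage hj.injective, fun x hx => ?_⟩
    obtain ⟨c', hc', hxc⟩ := h1 (j x) ⟨x, hx, rfl⟩
    obtain ⟨c, rfl⟩ := hr x c' hxc
    exact ⟨c, hc', (hE x c).2 hxc⟩
  · right
    have hPr : P ⊆ range j := fun y hy => by
      obtain ⟨x, -, rfl⟩ := hP3 hy
      exact ⟨x, rfl⟩
    refine ⟨j ⁻¹' P, ?_, perfect_preimage hj hP2 hPr, fun x hx => ?_, fun x hx y hy hxy => ?_⟩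
    · obtain ⟨y, hy⟩ := hP1
      obtain ⟨x, rfl⟩ := hPr hy
      exact ⟨x, hy⟩
    · obtain ⟨x', hx', e⟩ := hP3 hx
      rw [← hj.injective e]
      exact hx'
    · exact hj.injective (hP4 _ hx _ hy ((hE x y).1 hxy))

end Pool.H87.MS
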