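import Pool.Agent.H87.MS.Asm
import Pool.Agent.H87.MS.Pull

/-!
# THEOREM R: the dichotomy for actions of monoids

`xx_dich`: families of functions indexed by a countable monoid, with predicates, which are uniserial
actions. `act_dich`: actions of a countable monoid whose principal left ideals form a chain.
-/

set_option autoImplicit false

namespace Pool.H87.MS

open Set Ordinal Pool.H62.VT Pool.H55.RT

/-- uniserial actions -/
def Us (Mo : Type) [Monoid Mo] : Set (XX Mo) :=
  {x | (∀ u, x.1 1 u = u) ∧ (∀ m n u, x.1 (m * n) u = x.1 m (x.1 n u)) ∧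
    ∀ u m n, ∃ c, x.1 m u = x.1 c (x.1 n u) ∨ x.1 n u = x.1 c (x.1 m u)}

/-- the dichotomy for the codes -/
theorem cod_dich (Mo : Type) [Monoid Mo] [Encodable Mo] :
    Dich (fun x y : Str a2 => ∃ σ : Equiv.Perm ℕ, ∀ (n : ℕ) (t : Fin (a2 n) → ℕ),
      y n (fun i => σ (t i)) = x n t) {A | MS Mo A} := by
  intro B hBC hB hinv
  exact str_dich Mo B hB (fun x y h hx => hinv x y h hx) (fun A hA => hBC hA)

theorem xx_polish (Mo : Type) [Countable Mo] : PolishSpace (XX Mo) := by
  have h1 : TopologicalSpace.IsCompletelyMetrizableSpace (Mo → ℕ → ℕ) := inferInstance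
  have h2 : TopologicalSpace.IsCompletelyMetrizableSpace (ℕ → ℕ → Bool) := inferInstance
  have h3 : SecondCountableTopology (Mo → ℕ → ℕ) := inferInstance
  have h4 : SecondCountableTopology (ℕ → ℕ → Bool) := inferInstance
  have h5 : TopologicalSpace.IsCompletelyMetrizableSpace (XX Mo) := inferInstance
  have h6 : SecondCountableTopology (XX Mo) := inferInstance
  exact { toSecondCountableTopology := h6, toIsCompletelyMetrizableSpace := h5 }

theorem xx_dich (Mo : Type) [Monoid Mo] [Countable Mo] : Dich IsoX (Us Mo) := by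
  letI : Encodable Mo := Encodable.ofCountable Mo
  haveI := xx_polish Mo
  exact (cod_dich Mo).pull cod_embedding (fun x y => iso_cod) (fun x y' ⟨σ, h⟩ => by
    obtain ⟨y, hy, -⟩ := cod_of_iso h
    exact ⟨y, hy⟩) (fun x hx => ms_cod x hx.1 hx.2.1 hx.2.2)

/-- families of functions -/
theorem fn_embedding (Mo : Type) :
    Topology.IsEmbedding (fun f : Mo → ℕ → ℕ => ((f, fun _ _ => false) : XX Mo)) := by
  refine Function.LeftInverse.isEmbedding (f := Prod.fst) (fun f => rfl) continuous_fst ?_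
  exact continuous_id.prodMk continuous_const

/-- **Actions of chain monoids.** -/
theorem act_dich (Mo : Type) [Monoid Mo] [Countable Mo]
    (hch : ∀ a b : Mo, ∃ c, a = c * b ∨ b = c * a) :
    Dich (fun f f' : Mo → ℕ → ℕ => ∃ σ : Equiv.Perm ℕ, ∀ m u, f' m (σ u) = σ (f m u))
      {f | (∀ u, f 1 u = u) ∧ ∀ m n u, f (m * n) u = f m (f n u)} := by
  refine (xx_dich Mo).pull (fn_embedding Mo) (fun f f' => ?_) (fun f y' h => ?_) (fun f hf => ?_)
  · constructor
    · rintro ⟨σ, h⟩
      exact ⟨σ, h, fun _ _ => rfl⟩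
    · rintro ⟨σ, h, -⟩
      exact ⟨σ, h⟩
  · obtain ⟨σ, -, h2⟩ := h
    refine ⟨y'.1, Prod.ext rfl ?_⟩
    funext j u
    have := h2 j (σ.symm u)
    rw [Equiv.apply_symm_apply] at this
    exact this
  · refine ⟨hf.1, hf.2, fun u m n => ?_⟩
    obtain ⟨c, h | h⟩ := hch m n
    · refine ⟨c, Or.inl ?_⟩
      show f m u = f c (f n u)
      rw [h, hf.2]
    · refine ⟨c, Or.inr ?_⟩
      show f n u = f c (f m u)
      rw [h, hf.2]

end Pool.H87.MS
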