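import Pool.Agent.H87.MS.Fin
import Pool.Agent.H17.MA.Fd

/-!
# THEOREM R, tame half in the final form

`tame_alg`: strong Vaught for the algebras with countably many unary functions and colours in which the
elements which can be reached from a given one are linearly preordered.
-/

set_option autoImplicit false

namespace Pool.H87.MS

open Set Ordinal Pool.H62.VT Pool.H55.RT Pool.H17.MA

variable {ι κ : Type}

/-- the value of a word (a composition of functions), the last letter is applied first -/
def wv (f : ι → ℕ → ℕ) (w : List ι) (u : ℕ) : ℕ := w.foldr f u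

theorem wv_append (f : ι → ℕ → ℕ) (v w : List ι) (u : ℕ) : wv f (v ++ w) u = wv f v (wv f w u) :=
  List.foldr_append

theorem reach_wv (x : Alg ι κ) (w : List ι) (u : ℕ) : Reach x u (wv x.1 w u) := by
  induction w with
  | nil => exact Relation.ReflTransGen.refl
  | cons i w ih => exact ih.tail ⟨i, rfl⟩

theorem wv_of_reach {x : Alg ι κ} {u v : ℕ} (h : Reach x u v) : ∃ w, v = wv x.1 w u := by
  induction h with
  | refl => exact ⟨[], rfl⟩
  | tail _ h ih =>
    obtain ⟨w, rfl⟩ := ih
    obtain ⟨i, rfl⟩ := h
    exact ⟨i :: w, rfl⟩

/-- words as elements of the free monoid, colours as predicates indexed by `ℕ` -/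
def toW [Encodable κ] (x : Alg ι κ) : XX (FreeMonoid ι) :=
  (fun w u => wv x.1 (FreeMonoid.toList w) u,
    fun n u => (Encodable.decode n : Option κ).elim false fun k => x.2 k u)

/-- the inverse -/
def ofW [Encodable κ] (y : XX (FreeMonoid ι)) : Alg ι κ :=
  (fun i u => y.1 (FreeMonoid.of i) u, fun k u => y.2 (Encodable.encode k) u)

theorem ofW_toW [Encodable κ] (x : Alg ι κ) : ofW (toW x) = x := by
  unfold ofW toW
  refine Prod.ext rfl ?_
  funext k u
  simp [Encodable.encodek]

theorem toW_embedding [Encodable κ] : Topology.IsEmbedding (toW (ι := ι) (κ := κ)) := by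
  refine Function.LeftInverse.isEmbedding (f := ofW) ofW_toW ?_ ?_
  · unfold ofW
    fun_prop
  · have h : ∀ (w : List ι) (u : ℕ), Continuous fun x : Alg ι κ => wv x.1 w u := by
      intro w
      induction w with
      | nil => exact fun u => continuous_const
      | cons i w ih =>
        intro u
        have h1 : Continuous fun x : Alg ι κ => (x.1 i, wv x.1 w u) := by
          have := ih u
          fun_prop
        have h2 : Continuous fun q : (ℕ → ℕ) × ℕ => q.1 q.2 := by
          rw [continuous_discrete_rng]
          intro b
          have : (fun q : (ℕ → ℕ) × ℕ => q.1 q.2) ⁻¹' {b} =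
              ⋃ v : ℕ, ({g : ℕ → ℕ | g v = b} ×ˢ {v}) := by
            ext ⟨g, v⟩
            simp
          rw [this]
          refine isOpen_iUnion fun v => IsOpen.prod ?_ (isOpen_discrete _)
          have h3 : Continuous fun g : ℕ → ℕ => g v := continuous_apply v
          exact (isOpen_discrete {b}).preimage h3
        exact h2.comp h1
    unfold toW
    refine Continuous.prodMk (continuous_pi fun w => continuous_pi fun u => h _ u)
      (continuous_pi fun n => continuous_pi fun u => ?_)
    cases hd : (Encodable.decode n : Option κ) with
    | none => exact continuous_const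
    | some k =>
      show Continuous fun x : Alg ι κ => x.2 k u
      fun_prop

theorem alg_polish [Countable ι] [Countable κ] : PolishSpace (Alg ι κ) := by
  have h1 : TopologicalSpace.IsCompletelyMetrizableSpace (ι → ℕ → ℕ) := inferInstance
  have h2 : TopologicalSpace.IsCompletelyMetrizableSpace (κ → ℕ → Bool) := inferInstance
  have h3 : SecondCountableTopology (ι → ℕ → ℕ) := inferInstance
  have h4 : SecondCountableTopology (κ → ℕ → Bool) := inferInstance
  have h5 : TopologicalSpace.IsCompletelyMetrizableSpace (Alg ι κ) := inferInstance
  have h6 : SecondCountableTopology (Alg ι κ) := inferInstance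
  exact { toSecondCountableTopology := h6, toIsCompletelyMetrizableSpace := h5 }

/-- **The tame half of THEOREM R.** -/
theorem tame_alg (ι κ : Type) [Countable ι] [Countable κ] : SVg {x : Alg ι κ | Uni x} := by
  letI : Encodable κ := Encodable.ofCountable κ
  haveI hpol : PolishSpace (Alg ι κ) := alg_polish
  haveI : Countable (FreeMonoid ι) := inferInstanceAs (Countable (List ι))
  refine (xx_dich (FreeMonoid ι)).pull (E := IsoG) toW_embedding (fun x y => ?_) (fun x y' h => ?_)
    (fun x hx => ?_)
  · constructor
    · rintro ⟨σ, h1, h2⟩
      refine ⟨σ, fun w u => ?_, fun n u => ?_⟩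
      · show wv y.1 (FreeMonoid.toList w) (σ u) = σ (wv x.1 (FreeMonoid.toList w) u)
        induction FreeMonoid.toList w with
        | nil => rfl
        | cons i w ih =>
          show y.1 i (wv y.1 w (σ u)) = σ (x.1 i (wv x.1 w u))
          rw [ih, h1]
      · show (Encodable.decode n : Option κ).elim false (fun k => y.2 k (σ u)) =
          (Encodable.decode n : Option κ).elim false fun k => x.2 k u
        simp only [h2]
    · rintro ⟨σ, h1, h2⟩
      refine ⟨σ, fun i u => h1 (FreeMonoid.of i) u, fun k u => ?_⟩
      have h3 := h2 (Encodable.encode k) u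
      change (Encodable.decode (Encodable.encode k) : Option κ).elim false (fun k => y.2 k (σ u)) =
          (Encodable.decode (Encodable.encode k) : Option κ).elim false (fun k => x.2 k u) at h3
      rw [Encodable.encodek] at h3
      exact h3
  · obtain ⟨σ, h1, h2⟩ := h
    refine ⟨ofW y', Prod.ext ?_ ?_⟩
    · funext w u
      show y'.1 w u = wv (fun i u => y'.1 (FreeMonoid.of i) u) (FreeMonoid.toList w) u
      have key : ∀ (l : List ι) (u : ℕ), y'.1 (FreeMonoid.ofList l) (σ u) = σ (wv x.1 l u) :=
        fun l u => h1 (FreeMonoid.ofList l) u
      have h3 : ∀ (l : List ι) (u : ℕ), y'.1 (FreeMonoid.ofList l) u =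
          wv (fun i u => y'.1 (FreeMonoid.of i) u) l u := by
        intro l
        induction l with
        | nil =>
          intro u
          have := key [] (σ.symm u)
          rw [Equiv.apply_symm_apply] at this
          rw [this]
          show σ (σ.symm u) = u
          rw [Equiv.apply_symm_apply]
        | cons i l ih =>
          intro u
          have e1 := key (i :: l) (σ.symm u)
          have e2 := key l (σ.symm u)
          have e3 := key [i] (wv x.1 l (σ.symm u))
          rw [Equiv.apply_symm_apply] at e1 e2
          show _ = y'.1 (FreeMonoid.of i) (wv (fun i u => y'.1 (FreeMonoid.of i) u) l u)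
          rw [← ih, e1, e2]
          exact e3.symm
      exact h3 (FreeMonoid.toList w) u
    · funext n u
      show y'.2 n u = (Encodable.decode n : Option κ).elim false fun k => y'.2 (Encodable.encode k) u
      have h4 := h2 n (σ.symm u)
      rw [Equiv.apply_symm_apply] at h4
      rw [h4]
      show (Encodable.decode n : Option κ).elim false (fun k => x.2 k (σ.symm u)) = _
      cases hd : (Encodable.decode n : Option κ) with
      | none => rfl
      | some k =>
        have h5 := h2 (Encodable.encode k) (σ.symm u)
        rw [Equiv.apply_symm_apply] at h5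
        show x.2 k (σ.symm u) = y'.2 (Encodable.encode k) u
        rw [h5]
        show _ = (Encodable.decode (Encodable.encode k) : Option κ).elim false
          (fun k => x.2 k (σ.symm u))
        rw [Encodable.encodek]
        rfl
  · refine ⟨fun u => rfl, fun m n u => ?_, fun u m n => ?_⟩
    · show wv x.1 (FreeMonoid.toList (m * n)) u = _
      rw [FreeMonoid.toList_mul, wv_append]
      rfl
    · rcases hx u _ _ (reach_wv x (FreeMonoid.toList m) u) (reach_wv x (FreeMonoid.toList n) u)
        with h | h
      · obtain ⟨c, hc⟩ := wv_of_reach h
        exact ⟨FreeMonoid.ofList c, Or.inr hc⟩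
      · obtain ⟨c, hc⟩ := wv_of_reach h
        exact ⟨FreeMonoid.ofList c, Or.inl hc⟩

end Pool.H87.MS
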