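import Pool.Agent.H17.MA.Wl
import Pool.Agent.H17.MA.Fq
import Pool.Agent.H87.MS.Tm

/-!
# THEOREM R, wild side for classes given by the equations satisfied by single elements

`EqM f u`: the equations satisfied by `u` in the action `f`: `w u = w' u`, and `w u = w' v` for all `v`. `KW f₀ u₀`:
the actions in which every element satisfies all equations of some `m u₀` (in the action `f₀`). `wild_kw`: if
`a u₀` and `b u₀` cannot be reached from each other then strong Vaught for `KW f₀ u₀` implies the full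
conjecture. The piece is a homomorphic image of the orbit of `u₀` (`exists_piece_of`); in the coded structure
an equation `w u = w' v` for all `v` holds because its value lies in `A ∩ B`, which is common to all copies.
-/

set_option autoImplicit false

namespace Pool.H87.MS

open Set Function Pool.H63.MQ Pool.H22.D Pool.H17.MA

/-! ### identities over a monoid -/

section monoid

variable {M : Type} [Monoid M]

/-- the equations satisfied by `u` -/
def EqM (f : Fn M) (u : ℕ) : Set (M × M × Bool) :=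
  {p | if p.2.2 = true then ∀ v, f p.1 u = f p.2.1 v else f p.1 u = f p.2.1 u}

/-- actions in which every element satisfies all equations of some `m u₀` -/
def KW (f₀ : Fn M) (u₀ : ℕ) : Set (Fn M) :=
  {f | f ∈ Acts M ∧ ∀ v, ∃ m, EqM f₀ (f₀ m u₀) ⊆ EqM f v}

/-- the matrices of the members of `K` -/
def MxK (K : Set (Fn M)) : Set (Mx (M → Bool)) :=
  {y | ∃ f ∈ K, ∀ u v m, y u v m = true ↔ f m u = v}

theorem exists_piece_of [Countable M] {f : Fn M} (hf : f ∈ Acts M) {u₀ : ℕ} {a b : M}
    (hab : ∀ m : M, f m (f b u₀) ≠ f a u₀) (hba : ∀ m : M, f m (f a u₀) ≠ f b u₀) :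
    ∃ (P : Type) (_ : Countable P) (i : MulAction M P) (_ : @Piece M P _ i) (π : M → P),
      Surjective π ∧ (∀ k m : M, k • π m = π (k * m)) ∧
        ∀ m m' : M, f m u₀ = f m' u₀ → π m = π m' := by
  let r : Setoid M :=
    { r := fun m m' => ∀ k : M, ((∃ n, f n (f a u₀) = f k (f m u₀)) ↔
          ∃ n, f n (f a u₀) = f k (f m' u₀)) ∧
        ((∃ n, f n (f b u₀) = f k (f m u₀)) ↔ ∃ n, f n (f b u₀) = f k (f m' u₀))
      iseqv := ⟨fun _ _ => ⟨Iff.rfl, Iff.rfl⟩, fun h k => ⟨(h k).1.symm, (h k).2.symm⟩,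
        fun h h' k => ⟨(h k).1.trans (h' k).1, (h k).2.trans (h' k).2⟩⟩ }
  have hr : ∀ m m' : M, r m m' ↔ ∀ k : M, ((∃ n, f n (f a u₀) = f k (f m u₀)) ↔
        ∃ n, f n (f a u₀) = f k (f m' u₀)) ∧
      ((∃ n, f n (f b u₀) = f k (f m u₀)) ↔ ∃ n, f n (f b u₀) = f k (f m' u₀)) := fun _ _ => Iff.rfl
  let i : MulAction M (Quotient r) :=
    { smul := fun k => Quotient.map (fun m => k * m) (by
        intro m m' h k'
        have h1 := h (k' * k)
        simp only [hf.2] at h1 ⊢
        exact h1)
      one_smul := by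
        intro p
        induction p using Quotient.inductionOn with
        | h m => exact congrArg (Quotient.mk r) (one_mul m)
      mul_smul := by
        intro k l p
        induction p using Quotient.inductionOn with
        | h m => exact congrArg (Quotient.mk r) (mul_assoc k l m) }
  have hs : ∀ k m : M, k • (Quotient.mk r m) = Quotient.mk r (k * m) := fun _ _ => rfl
  have hA : ∀ x : M, (∃ m : M, m • (a • (Quotient.mk r 1)) = Quotient.mk r x) ↔
      ∃ n, f n (f a u₀) = f x u₀ := by
    intro x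
    constructor
    · rintro ⟨m, hm⟩
      rw [hs, hs] at hm
      have h1 := ((hr _ _).1 (Quotient.exact hm) 1).1
      simp only [hf.1, mul_one, hf.2] at h1
      exact h1.1 ⟨m, rfl⟩
    · rintro ⟨n, hn⟩
      refine ⟨n, ?_⟩
      rw [hs, hs, mul_one]
      apply Quotient.sound
      intro k
      rw [hf.2, hn]
      exact ⟨Iff.rfl, Iff.rfl⟩
  have hB : ∀ x : M, (∃ m : M, m • (b • (Quotient.mk r 1)) = Quotient.mk r x) ↔
      ∃ n, f n (f b u₀) = f x u₀ := by
    intro x
    constructor
    · rintro ⟨m, hm⟩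
      rw [hs, hs] at hm
      have h1 := ((hr _ _).1 (Quotient.exact hm) 1).2
      simp only [hf.1, mul_one, hf.2] at h1
      exact h1.1 ⟨m, rfl⟩
    · rintro ⟨n, hn⟩
      refine ⟨n, ?_⟩
      rw [hs, hs, mul_one]
      apply Quotient.sound
      intro k
      rw [hf.2, hn]
      exact ⟨Iff.rfl, Iff.rfl⟩
  refine ⟨Quotient r, inferInstance, i,
    { e := Quotient.mk r 1
      a := a
      b := b
      gen := by
        intro p
        induction p using Quotient.inductionOn with
        | h m => exact ⟨m, by rw [hs, mul_one]⟩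
      A := {p | ∃ m : M, m • (a • (Quotient.mk r 1)) = p}
      B := {p | ∃ m : M, m • (b • (Quotient.mk r 1)) = p}
      hA := fun p => Iff.rfl
      hB := fun p => Iff.rfl
      aB := by
        intro h
        have h2 : a • (Quotient.mk r 1) = Quotient.mk r a := by rw [hs, mul_one]
        obtain ⟨m, hm⟩ := h
        obtain ⟨n, hn⟩ := (hB a).1 ⟨m, hm.trans h2⟩
        exact hab n hn
      bA := by
        intro h
        have h2 : b • (Quotient.mk r 1) = Quotient.mk r b := by rw [hs, mul_one]
        obtain ⟨m, hm⟩ := h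
        obtain ⟨n, hn⟩ := (hA b).1 ⟨m, hm.trans h2⟩
        exact hba n hn
      rig := by
        intro p p' h
        induction p using Quotient.inductionOn with
        | h m =>
          induction p' using Quotient.inductionOn with
          | h m' =>
            apply Quotient.sound
            intro k
            have h1 := h k
            rw [hs, hs] at h1
            have h2 := (hA (k * m)).symm.trans (h1.1.trans (hA (k * m')))
            have h3 := (hB (k * m)).symm.trans (h1.2.trans (hB (k * m')))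
            rw [hf.2, hf.2] at h2 h3
            exact ⟨h2, h3⟩ }, Quotient.mk r, Quotient.mk_surjective, hs, fun m m' h => ?_⟩
  apply Quotient.sound
  intro k
  rw [h]
  exact ⟨Iff.rfl, Iff.rfl⟩

variable {P : Type} [MulAction M P] {c : Piece M P}

theorem mat_mem_kw {f₀ : Fn M} {u₀ : ℕ} {π : M → P} (hπ : Surjective π)
    (h1 : ∀ m w w', f₀ w (f₀ m u₀) = f₀ w' (f₀ m u₀) → w • π m = w' • π m)
    (h2 : ∀ m w w', (∀ v, f₀ w (f₀ m u₀) = f₀ w' v) → ∀ p, w • π m = w' • p) {x : Gx}
    (hx : x ∈ Gr3) {g : ℕ → Qm P} (hg : (labM c).Val x g) : (labM c).mat x g ∈ MxK (KW f₀ u₀) := by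
  obtain ⟨f, hf, hfy⟩ := mat_mem hx hg
  obtain ⟨hv, hinj, -⟩ := pos hg
  have hgf : ∀ (m : M) (u : ℕ), g (f m u) = ac c m (g u) := by
    intro m u
    have h3 := (hfy u (f m u) m).2 rfl
    rcases mat_iff.1 h3 with ⟨h4, h5⟩ | ⟨-, h5⟩
    · rw [h5]
      exact congrArg g h4.symm
    · exact h5.symm
  refine ⟨f, ⟨hf, fun v => ?_⟩, hfy⟩
  obtain ⟨U, V, p, -, hp⟩ := (vl_io c hx).1 (hv v)
  obtain ⟨m, rfl⟩ := hπ p
  refine ⟨m, ?_⟩
  rintro ⟨w, w', b⟩ hb
  cases b with
  | false =>
    have h3 : f₀ w (f₀ m u₀) = f₀ w' (f₀ m u₀) := by simpa [EqM] using hb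
    have h4 : f w v = f w' v := by
      apply hinj
      rw [hgf, hgf, hp, ac_io, ac_io, h1 m w w' h3]
    simpa [EqM] using h4
  | true =>
    have h3 : ∀ v, f₀ w (f₀ m u₀) = f₀ w' v := by simpa [EqM] using hb
    have h4 := h2 m w w' h3
    have hr : w • π m ∈ c.A ∩ c.B := by
      refine ⟨?_, ?_⟩
      · rw [h4 (c.a • c.e)]
        exact A_smul c (ae_mem c).1 _
      · rw [h4 (c.b • c.e)]
        exact B_smul c (be_mem c).1 _
    have h5 : ∀ v', f w v = f w' v' := by
      intro v'
      apply hinj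
      obtain ⟨U', V', p', -, hp'⟩ := (vl_io c hx).1 (hv v')
      rw [hgf, hgf, hp, hp', ac_io, ac_io, ← h4 p', io_eq]
      exact ⟨rfl, Or.inl hr⟩
    simpa [EqM] using h5

theorem dich_mxk [Countable M] {K : Set (Fn M)} (h : Pool.H63.MQ.Dich IsoA K) :
    Pool.H63.MQ.Dich IsoM (MxK K) := by
  refine Pool.H63.MQ.Dich.push (Y := Fn M) (E' := IsoA) isoM_equiv
    (fun f u v m => decide (f m u = v)) ?_ (L := univ) MeasurableSet.univ
    (fun _ _ _ _ => mem_univ _) ?_ h ?_
  · refine continuous_pi fun u => continuous_pi fun v => continuous_pi fun m => ?_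
    have h1 : Continuous fun f : Fn M => f m u :=
      (continuous_apply u).comp (continuous_apply m)
    exact (continuous_of_discreteTopology (f := fun w : ℕ => decide (w = v))).comp h1
  · intro f _ f' _
    constructor
    · rintro ⟨σ, hσ⟩
      refine ⟨σ, fun u v => ?_⟩
      funext m
      simp only [hσ, EmbeddingLike.apply_eq_iff_eq]
    · rintro ⟨σ, hσ⟩
      refine ⟨σ, fun m u => ?_⟩
      have h1 := congrFun (hσ u (f m u)) m
      simpa using h1
  · rintro x ⟨f, hf, hx⟩
    refine ⟨f, hf, mem_univ _, ?_⟩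
    have : x = fun u v m => decide (f m u = v) := by
      funext u v m
      rw [Bool.eq_iff_iff, hx u v m, decide_eq_true_iff]
    rw [this]
    exact isoM_equiv.refl _

private theorem polish_bool (J : Type) [Countable J] : PolishSpace (J → Bool) :=
  { toSecondCountableTopology := inferInstance
    toIsCompletelyMetrizableSpace := TopologicalSpace.IsCompletelyMetrizableSpace.pi_countable }

theorem wild_kw [Countable M] {f : Fn M} (hf : f ∈ Acts M) {u₀ : ℕ} {a b : M}
    (hab : ∀ m : M, f m (f b u₀) ≠ f a u₀) (hba : ∀ m : M, f m (f a u₀) ≠ f b u₀)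
    (h : Pool.H63.MQ.Dich IsoA (KW f u₀)) : Q1 := by
  obtain ⟨P, hPc, i, c, π, hπ1, hπ2, hπ3⟩ := exists_piece_of hf hab hba
  have hq : Countable (Qm P) := countable_qm
  have hp1 : PolishSpace (M → Bool) := polish_bool M
  have hp2 : PolishSpace (Fin 1 → Bool) := polish_bool (Fin 1)
  have hp3 : PolishSpace Gx := inferInstance
  have h1 : ∀ m w w', f w (f m u₀) = f w' (f m u₀) → w • π m = w' • π m := by
    intro m w w' h
    rw [hπ2, hπ2]
    apply hπ3
    rw [hf.2, hf.2, h]
  have h2 : ∀ m w w', (∀ v, f w (f m u₀) = f w' v) → ∀ p, w • π m = w' • p := by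
    intro m w w' h p
    obtain ⟨k, rfl⟩ := hπ1 p
    rw [hπ2, hπ2]
    apply hπ3
    rw [hf.2, hf.2]
    exact h _
  apply q1_of_gr3
  refine lab_dich (labM_ok c) (K := MxK (KW f u₀)) (fun x hx g hg => mat_mem_kw hπ1 h1 h2 hx hg) ?_
    (dich_mxk h)
  intro x y
  constructor
  · rintro ⟨σ, hσ⟩
    refine ⟨σ, ?_⟩
    show (fun u v => x (σ⁻¹ u) (σ⁻¹ v)) = y
    funext u v
    have h1 := hσ (σ⁻¹ u) (σ⁻¹ v)
    simp only [← Equiv.Perm.mul_apply, mul_inv_cancel, Equiv.Perm.one_apply] at h1
    exact h1.symm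
  · rintro ⟨σ, rfl⟩
    refine ⟨σ, fun u v => ?_⟩
    show x (σ⁻¹ (σ u)) (σ⁻¹ (σ v)) = x u v
    simp only [← Equiv.Perm.mul_apply, inv_mul_cancel, Equiv.Perm.one_apply]

end monoid

end Pool.H87.MS
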