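import Pool.Agent.H17.MA.Wl
import Pool.Agent.H87.MS.Vb

/-!
# Wild side for classes given by the one-generated subalgebras, with one colour

`Pce`: an `M`-set `P` generated by `e` with the sub-acts `A = M (a e)`, `B = M (b e)`, `a e ∉ B`, `b e ∉ A`, without
further hypotheses (compare `Pool.H17.MA.Piece`, where `P` is rigid). For a graph `x` with all degrees at least
`3` take a copy of `P` for every dart, glue them together as in `Pool.H17.MA`, and colour the copies of `e`. An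
isomorphism of the coloured `M`-sets maps the copies of `e` to copies of `e`, so it is given by a bijection of
the darts (`dartZ`), and this one is given by an isomorphism of the graphs (`coreZ`).
-/

set_option autoImplicit false

namespace Pool.H87.MS

open Set Function Pool.H63.MQ Pool.H22.D Pool.H17.MA

/-- pieces -/
structure Pce (M P : Type) [Monoid M] [MulAction M P] where
  e : P
  a : M
  b : M
  gen : ∀ p, ∃ m : M, m • e = p
  A : Set P
  B : Set P
  hA : ∀ p, p ∈ A ↔ ∃ m : M, m • (a • e) = p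
  hB : ∀ p, p ∈ B ↔ ∃ m : M, m • (b • e) = p
  aB : a • e ∉ B
  bA : b • e ∉ A

/-- labels: the common points, the points at a vertex, at an edge, and inside the copy for a dart -/
inductive Qz (P : Type)
  | z (p : P)
  | vx (u : ℕ) (p : P)
  | sd (s : Sym2 ℕ) (p : P)
  | ed (u v : ℕ) (p : P)

variable {M P : Type} [Monoid M] [MulAction M P]

open Classical in
/-- the copy of `p` for the dart `(u, v)` -/
noncomputable def jo (c : Pce M P) (u v : ℕ) (p : P) : Qz P :=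
  if p ∈ c.A then (if p ∈ c.B then .z p else .vx u p) else (if p ∈ c.B then .sd s(u, v) p else .ed u v p)

open Classical in
/-- the action on the labels -/
noncomputable def bc (c : Pce M P) (m : M) : Qz P → Qz P
  | .z p => .z (m • p)
  | .vx u p => if m • p ∈ c.B then .z (m • p) else .vx u (m • p)
  | .sd s p => if m • p ∈ c.A then .z (m • p) else .sd s (m • p)
  | .ed u v p => jo c u v (m • p)

/-- the label `q` occurs in the `M`-set of the graph `x` -/
def Vz (c : Pce M P) (x : Gx) : Qz P → Prop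
  | .z p => p ∈ c.A ∩ c.B
  | .vx _ p => p ∈ c.A \ c.B
  | .sd s p => p ∈ c.B \ c.A ∧ ∃ u v, s = s(u, v) ∧ x u v 0 = true
  | .ed u v p => p ∉ c.A ∧ p ∉ c.B ∧ x u v 0 = true

/-- permutations of the vertices act on the labels -/
def qz (σ : Equiv.Perm ℕ) : Qz P → Qz P
  | .z p => .z p
  | .vx u p => .vx (σ u) p
  | .sd s p => .sd (s.map σ) p
  | .ed u v p => .ed (σ u) (σ v) p

/-- coloured labels: the copies of `e` -/
def Cz (c : Pce M P) (q : Qz P) : Prop := ∃ u v, q = .ed u v c.e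

open Classical in
/-- the coding of graphs by coloured `M`-sets -/
noncomputable def labZ (c : Pce M P) : Lab Gx (Qz P) (Option M → Bool) where
  act σ x := fun u v => x (σ⁻¹ u) (σ⁻¹ v)
  qa := qz
  el u := .vx u (c.a • c.e)
  N x q := if Vz c x q then 1 else 0
  Ψ _ q q' := fun o => o.elim false fun m => decide (bc c m q = q')
  δ _ q := fun o => o.elim (decide (Cz c q)) fun m => decide (bc c m q = q)

variable (c : Pce M P)

theorem Az_smul {p : P} (h : p ∈ c.A) (m : M) : m • p ∈ c.A := by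
  obtain ⟨k, hk⟩ := (c.hA p).1 h
  exact (c.hA _).2 ⟨m * k, by rw [← hk, smul_smul m k]⟩

theorem Bz_smul {p : P} (h : p ∈ c.B) (m : M) : m • p ∈ c.B := by
  obtain ⟨k, hk⟩ := (c.hB p).1 h
  exact (c.hB _).2 ⟨m * k, by rw [← hk, smul_smul m k]⟩

theorem ez_notMem_A : c.e ∉ c.A := fun h => c.bA (Az_smul c h c.b)

theorem ez_notMem_B : c.e ∉ c.B := fun h => c.aB (Bz_smul c h c.a)

theorem aez_mem : c.a • c.e ∈ c.A \ c.B :=
  ⟨(c.hA _).2 ⟨1, one_smul _ _⟩, c.aB⟩

theorem bez_mem : c.b • c.e ∈ c.B \ c.A :=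
  ⟨(c.hB _).2 ⟨1, one_smul _ _⟩, c.bA⟩

theorem jo_e (u v : ℕ) : jo c u v c.e = .ed u v c.e := by
  rw [jo, if_neg (ez_notMem_A c), if_neg (ez_notMem_B c)]

theorem bc_jo (m : M) (u v : ℕ) (p : P) : bc c m (jo c u v p) = jo c u v (m • p) := by
  by_cases hA : p ∈ c.A
  · have hA' := Az_smul c hA m
    by_cases hB : p ∈ c.B
    · have hB' := Bz_smul c hB m
      rw [jo, if_pos hA, if_pos hB, jo, if_pos hA', if_pos hB', bc]
    · rw [jo, if_pos hA, if_neg hB, jo, if_pos hA', bc]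
  · by_cases hB : p ∈ c.B
    · have hB' := Bz_smul c hB m
      rw [jo, if_neg hA, if_pos hB, jo, if_pos hB', bc, if_pos hB']
    · have h1 : jo c u v p = .ed u v p := by rw [jo, if_neg hA, if_neg hB]
      rw [h1, bc]

theorem jo_eq {u v u' v' : ℕ} {p p' : P} : jo c u v p = jo c u' v' p' ↔
    p = p' ∧ (p ∈ c.A ∩ c.B ∨ (p ∈ c.A \ c.B ∧ u = u') ∨ (p ∈ c.B \ c.A ∧ s(u, v) = s(u', v')) ∨
      (u = u' ∧ v = v')) := by
  constructor
  · intro h
    by_cases hA : p ∈ c.A <;> by_cases hB : p ∈ c.B <;> by_cases hA' : p' ∈ c.A <;>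
      by_cases hB' : p' ∈ c.B <;> simp only [jo, hA, hB, hA', hB', if_true, if_false] at h <;>
      first
        | (cases h; done)
        | skip
    · injection h with h1
      exact ⟨h1, Or.inl ⟨hA, hB⟩⟩
    · injection h with h1 h2
      exact ⟨h2, Or.inr (Or.inl ⟨⟨hA, hB⟩, h1⟩)⟩
    · injection h with h1 h2
      exact ⟨h2, Or.inr (Or.inr (Or.inl ⟨⟨hB, hA⟩, h1⟩))⟩
    · injection h with h1 h2 h3
      exact ⟨h3, Or.inr (Or.inr (Or.inr ⟨h1, h2⟩))⟩
  · rintro ⟨rfl, h | h | h | h⟩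
    · rw [jo, jo, if_pos h.1, if_pos h.2, if_pos h.1, if_pos h.2]
    · rw [jo, jo, if_pos h.1.1, if_neg h.1.2, if_pos h.1.1, if_neg h.1.2, h.2]
    · rw [jo, jo, if_neg h.1.2, if_pos h.1.1, if_neg h.1.2, if_pos h.1.1, h.2]
    · rw [h.1, h.2]

theorem vz_jo {x : Gx} (hx : x ∈ Gr3) {q : Qz P} :
    Vz c x q ↔ ∃ u v p, x u v 0 = true ∧ q = jo c u v p := by
  constructor
  · intro h
    match q, h with
    | .z p, h =>
      have hp : p ∈ c.A ∩ c.B := h
      obtain ⟨v, -, hv⟩ := hx.2.2 0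
      exact ⟨0, v 0, p, hv 0, by rw [jo, if_pos hp.1, if_pos hp.2]⟩
    | .vx u p, h =>
      have hp : p ∈ c.A \ c.B := h
      obtain ⟨v, -, hv⟩ := hx.2.2 u
      exact ⟨u, v 0, p, hv 0, by rw [jo, if_pos hp.1, if_neg hp.2]⟩
    | .sd s p, h =>
      obtain ⟨hp, u, v, hs, huv⟩ : p ∈ c.B \ c.A ∧ ∃ u v, s = s(u, v) ∧ x u v 0 = true := h
      exact ⟨u, v, p, huv, by rw [jo, if_neg hp.2, if_pos hp.1, hs]⟩
    | .ed u v p, h =>
      obtain ⟨hp1, hp2, huv⟩ : p ∉ c.A ∧ p ∉ c.B ∧ x u v 0 = true := h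
      exact ⟨u, v, p, huv, by rw [jo, if_neg hp1, if_neg hp2]⟩
  · rintro ⟨u, v, p, huv, rfl⟩
    by_cases hA : p ∈ c.A
    · by_cases hB : p ∈ c.B
      · rw [jo, if_pos hA, if_pos hB]
        exact ⟨hA, hB⟩
      · rw [jo, if_pos hA, if_neg hB]
        exact ⟨hA, hB⟩
    · by_cases hB : p ∈ c.B
      · rw [jo, if_neg hA, if_pos hB]
        exact ⟨⟨hB, hA⟩, u, v, rfl, huv⟩
      · rw [jo, if_neg hA, if_neg hB]
        exact ⟨hA, hB, huv⟩

theorem qz_jo (σ : Equiv.Perm ℕ) (u v : ℕ) (p : P) : qz σ (jo c u v p) = jo c (σ u) (σ v) p := by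
  by_cases hA : p ∈ c.A
  · by_cases hB : p ∈ c.B
    · rw [jo, jo, if_pos hA, if_pos hB, if_pos hA, if_pos hB, qz]
    · rw [jo, jo, if_pos hA, if_neg hB, if_pos hA, if_neg hB, qz]
  · by_cases hB : p ∈ c.B
    · rw [jo, jo, if_neg hA, if_pos hB, if_neg hA, if_pos hB, qz, Sym2.map_mk]
    · rw [jo, jo, if_neg hA, if_neg hB, if_neg hA, if_neg hB, qz]

variable {c}

theorem vz_bc {x : Gx} (hx : x ∈ Gr3) {q : Qz P} (hq : Vz c x q) (m : M) : Vz c x (bc c m q) := by
  obtain ⟨u, v, p, huv, rfl⟩ := (vz_jo c hx).1 hq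
  rw [bc_jo]
  exact (vz_jo c hx).2 ⟨u, v, m • p, huv, rfl⟩

variable (c)

/-- `T`, `T'` are inverse isomorphisms between the coloured `M`-sets of `x` and `x'` -/
structure Hyz (x x' : Gx) (T T' : Qz P → Qz P) : Prop where
  hx : x ∈ Gr3
  hx' : x' ∈ Gr3
  val : ∀ q, Vz c x q → Vz c x' (T q)
  val' : ∀ q, Vz c x' q → Vz c x (T' q)
  left : ∀ q, Vz c x q → T' (T q) = q
  right : ∀ q, Vz c x' q → T (T' q) = q
  eqv : ∀ (m : M) (q), Vz c x q → T (bc c m q) = bc c m (T q)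
  col : ∀ q, Vz c x q → (Cz c q ↔ Cz c (T q))

variable {c} {x x' : Gx} {T T' : Qz P → Qz P}

theorem dartZ (h : Hyz c x x' T T') : ∃ D : ℕ × ℕ → ℕ × ℕ, (∀ d, Dt x d → Dt x' (D d)) ∧
    (∀ d d', Dt x d → Dt x d' → D d = D d' → d = d') ∧ (∀ d', Dt x' d' → ∃ d, Dt x d ∧ D d = d') ∧
    ∀ d, Dt x d → ∀ p, T (jo c d.1 d.2 p) = jo c (D d).1 (D d).2 p := by
  classical
  have val : ∀ d, Dt x d → ∀ p, Vz c x (jo c d.1 d.2 p) := fun d hd p =>
    (vz_jo c h.hx).2 ⟨d.1, d.2, p, hd, rfl⟩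
  have val' : ∀ d, Dt x' d → ∀ p, Vz c x' (jo c d.1 d.2 p) := fun d hd p =>
    (vz_jo c h.hx').2 ⟨d.1, d.2, p, hd, rfl⟩
  have hex : ∀ d : ℕ × ℕ, ∃ d' : ℕ × ℕ, Dt x d → T (.ed d.1 d.2 c.e) = .ed d'.1 d'.2 c.e := by
    intro d
    by_cases hd : Dt x d
    · have h1 := val d hd c.e
      rw [jo_e] at h1
      obtain ⟨u, v, huv⟩ := (h.col _ h1).1 ⟨d.1, d.2, rfl⟩
      exact ⟨(u, v), fun _ => huv⟩
    · exact ⟨d, fun hd' => absurd hd' hd⟩
  choose D hD using hex
  refine ⟨D, fun d hd => ?_, fun d d' hd hd' hdd => ?_, fun d' hd' => ?_, fun d hd p => ?_⟩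
  · have h1 := val d hd c.e
    rw [jo_e] at h1
    have h2 := h.val _ h1
    rw [hD d hd] at h2
    exact h2.2.2
  · have h1 := val d hd c.e
    have h1' := val d' hd' c.e
    rw [jo_e] at h1 h1'
    have h2 : T (.ed d.1 d.2 c.e) = T (.ed d'.1 d'.2 c.e) := by rw [hD d hd, hD d' hd', hdd]
    have h3 := congrArg T' h2
    rw [h.left _ h1, h.left _ h1'] at h3
    injection h3 with h4 h5
    exact Prod.ext h4 h5
  · have h1 := val' d' hd' c.e
    rw [jo_e] at h1
    have h2 := h.right _ h1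
    have h3 := h.val' _ h1
    have h4 : Cz c (T' (.ed d'.1 d'.2 c.e)) := by
      rw [h.col _ h3, h2]
      exact ⟨_, _, rfl⟩
    obtain ⟨u, v, huv⟩ := h4
    rw [huv] at h3
    refine ⟨(u, v), h3.2.2, ?_⟩
    have h5 := hD (u, v) h3.2.2
    simp only at h5
    rw [← huv, h2] at h5
    injection h5 with h6 h7
    exact Prod.ext h6.symm h7.symm
  · obtain ⟨m, rfl⟩ := c.gen p
    rw [← bc_jo, ← bc_jo, h.eqv _ _ (val d hd _), jo_e, jo_e, hD d hd]

theorem coreZ (h : Hyz c x x' T T') : ∃ σ : Equiv.Perm ℕ,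
    (x' = fun u v => x (σ⁻¹ u) (σ⁻¹ v)) ∧ ∀ q, Vz c x q → T q = qz σ q := by
  obtain ⟨D, hDt, hDinj, hDsurj, hT⟩ := dartZ h
  have val : ∀ d, Dt x d → ∀ p, Vz c x (jo c d.1 d.2 p) := fun d hd p =>
    (vz_jo c h.hx).2 ⟨d.1, d.2, p, hd, rfl⟩
  have hinjT : ∀ q q', Vz c x q → Vz c x q' → T q = T q' → q = q' := by
    intro q q' hq hq' hT
    rw [← h.left q hq, hT, h.left q' hq']
  have hsym : ∀ u v, Dt x (u, v) → Dt x (v, u) := by
    intro u v huv
    show x v u 0 = true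
    rw [h.hx.2.1 v u]
    exact huv
  have hne : ∀ u v, Dt x (u, v) → u ≠ v := by
    rintro u v huv rfl
    have h1 : x u u 0 = true := huv
    rw [h.hx.1 u] at h1
    exact Bool.false_ne_true h1
  -- the first coordinate
  have hfst : ∀ d d', Dt x d → Dt x d' → (d.1 = d'.1 ↔ (D d).1 = (D d').1) := by
    intro d d' hd hd'
    have hae := aez_mem c
    have e1 : ∀ d d' : ℕ × ℕ, jo c d.1 d.2 (c.a • c.e) = jo c d'.1 d'.2 (c.a • c.e) ↔
        d.1 = d'.1 := by
      intro d d'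
      rw [jo_eq]
      constructor
      · rintro ⟨-, h2 | h2 | h2 | h2⟩
        · exact absurd h2.2 hae.2
        · exact h2.2
        · exact absurd hae.1 h2.1.2
        · exact h2.1
      · intro h2
        exact ⟨rfl, Or.inr (Or.inl ⟨hae, h2⟩)⟩
    rw [← e1 d d', ← e1 (D d) (D d'), ← hT d hd, ← hT d' hd']
    exact ⟨fun h2 => by rw [h2], fun h2 => hinjT _ _ (val d hd _) (val d' hd' _) h2⟩
  have hswap : ∀ u v, Dt x (u, v) → D (v, u) = (D (u, v)).swap := by
    intro u v huv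
    have hvu := hsym u v huv
    have hbe := bez_mem c
    have e1 : jo c u v (c.b • c.e) = jo c v u (c.b • c.e) :=
      (jo_eq c).2 ⟨rfl, Or.inr (Or.inr (Or.inl ⟨hbe, Sym2.eq_swap⟩))⟩
    have e2 := congrArg T e1
    have e3 := hT (u, v) huv (c.b • c.e)
    have e4 := hT (v, u) hvu (c.b • c.e)
    simp only at e3 e4
    rw [e3, e4] at e2
    have hdd : D (u, v) ≠ D (v, u) := by
      intro h2
      exact hne u v huv (Prod.ext_iff.1 (hDinj _ _ huv hvu h2)).1
    rcases ((jo_eq c).1 e2).2 with h2 | h2 | h2 | h2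
    · exact absurd h2.1 hbe.2
    · exact absurd h2.1.1 hbe.2
    · rcases Sym2.eq_iff.1 h2.2 with h3 | h3
      · exact absurd (Prod.ext h3.1 h3.2) hdd
      · exact Prod.ext h3.2.symm h3.1.symm
    · exact absurd (Prod.ext h2.1 h2.2) hdd
  choose nb _ hnb using h.hx.2.2
  have hnbd : ∀ u, Dt x (u, nb u 0) := fun u => hnb u 0
  let s : ℕ → ℕ := fun u => (D (u, nb u 0)).1
  have hs : ∀ d, Dt x d → D d = (s d.1, s d.2) := by
    rintro ⟨u, v⟩ hd
    have h1 : (D (u, v)).1 = s u := (hfst (u, v) (u, nb u 0) hd (hnbd u)).1 rfl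
    have h2 : (D (v, u)).1 = s v := (hfst (v, u) (v, nb v 0) (hsym u v hd) (hnbd v)).1 rfl
    rw [hswap u v hd] at h2
    exact Prod.ext h1 h2
  have hsinj : Injective s := by
    intro u u' huu
    exact (hfst (u, nb u 0) (u', nb u' 0) (hnbd u) (hnbd u')).2 huu
  have hssurj : Surjective s := by
    intro u'
    obtain ⟨v, -, hv⟩ := h.hx'.2.2 u'
    obtain ⟨d, hd, hdd⟩ := hDsurj (u', v 0) (hv 0)
    rw [hs d hd] at hdd
    exact ⟨d.1, (Prod.ext_iff.1 hdd).1⟩
  let σ : Equiv.Perm ℕ := Equiv.ofBijective s ⟨hsinj, hssurj⟩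
  have hσ : ∀ u, σ u = s u := fun u => rfl
  have key : ∀ a b, x' (σ a) (σ b) 0 = x a b 0 := by
    intro a b
    have h1 : x' (σ a) (σ b) 0 = true ↔ x a b 0 = true := by
      constructor
      · intro h2
        obtain ⟨d, hd, hdd⟩ := hDsurj (σ a, σ b) h2
        rw [hs d hd] at hdd
        have e1 := hsinj (Prod.ext_iff.1 hdd).1
        have e2 := hsinj (Prod.ext_iff.1 hdd).2
        have h3 : x d.1 d.2 0 = true := hd
        rwa [e1, e2] at h3
      · intro h2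
        have h3 := hDt (a, b) h2
        rw [hs (a, b) h2] at h3
        exact h3
    exact Bool.eq_iff_iff.2 h1
  refine ⟨σ, ?_, ?_⟩
  · funext u v i
    have hi : i = 0 := Subsingleton.elim _ _
    subst hi
    have h1 := key (σ⁻¹ u) (σ⁻¹ v)
    rw [← Equiv.Perm.mul_apply, ← Equiv.Perm.mul_apply, mul_inv_cancel, Equiv.Perm.one_apply,
      Equiv.Perm.one_apply] at h1
    exact h1
  · intro q hq
    obtain ⟨u, v, p, huv, rfl⟩ := (vz_jo c h.hx).1 hq
    have h1 := hT (u, v) huv p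
    simp only at h1
    rw [h1, hs (u, v) huv, qz_jo]
    rfl

end Pool.H87.MS
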