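import Pool.Agent.H87.MS.Vc

/-!
# The rules for the coding of graphs by coloured `M`-sets

`matZ_some`, `matZ_none`: the entries of the matrix of a labelling. `posZ`: every valid label occurs exactly once.
`rcvZ`: recovery of the graph from the matrix (`coreZ`). `labZ_ok`: all rules for `labZ`.
-/

set_option autoImplicit false

namespace Pool.H87.MS

open Set Function Pool.H63.MQ Pool.H22.D Pool.H17.MA

variable {M P : Type} [Monoid M] [MulAction M P] {c : Pce M P} {x x' : Gx} {g g' : ℕ → Qz P}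

theorem matZ_some {n n' : ℕ} {m : M} : (labZ c).mat x g n n' (some m) = true ↔
    bc c m (g n) = g n' := by
  classical
  unfold Lab.mat
  by_cases hn : n = n'
  · rw [if_pos hn]
    subst hn
    show decide (bc c m (g n) = g n) = true ↔ _
    rw [decide_eq_true_eq]
  · rw [if_neg hn]
    show decide (bc c m (g n) = g n') = true ↔ _
    rw [decide_eq_true_eq]

theorem matZ_none {n n' : ℕ} : (labZ c).mat x g n n' none = true ↔ n = n' ∧ Cz c (g n) := by
  classical
  unfold Lab.mat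
  by_cases hn : n = n'
  · rw [if_pos hn]
    subst hn
    show decide (Cz c (g n)) = true ↔ _
    rw [decide_eq_true_eq]
    exact ⟨fun h => ⟨rfl, h⟩, fun h => h.2⟩
  · rw [if_neg hn]
    show false = true ↔ _
    exact ⟨fun h => absurd h Bool.false_ne_true, fun h => absurd h.1 hn⟩

theorem posZ (hg : (labZ c).Val x g) : (∀ n, Vz c x (g n)) ∧ Injective g ∧
    ∀ q, Vz c x q → ∃ n, g n = q := by
  classical
  have hN : ∀ q, {n | g n = q}.encard = ((if Vz c x q then 1 else 0 : ℕ) : ℕ∞) := hg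
  have h1 : ∀ q, Vz c x q → ∃ n, {n | g n = q} = {n} := by
    intro q hq
    have h2 := hN q
    rw [if_pos hq, Nat.cast_one] at h2
    exact Set.encard_eq_one.1 h2
  have h0 : ∀ n, Vz c x (g n) := by
    intro n
    by_contra h2
    have h3 := hN (g n)
    rw [if_neg h2, Nat.cast_zero, Set.encard_eq_zero] at h3
    have h4 : n ∈ {n' | g n' = g n} := rfl
    rw [h3] at h4
    exact h4
  refine ⟨h0, ?_, ?_⟩
  · intro n n' hn
    obtain ⟨k, hk⟩ := h1 _ (h0 n)
    have h2 : n ∈ {n' | g n' = g n} := rfl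
    have h3 : n' ∈ {n' | g n' = g n} := hn.symm
    rw [hk, Set.mem_singleton_iff] at h2 h3
    rw [h2, h3]
  · intro q hq
    obtain ⟨k, hk⟩ := h1 q hq
    have h2 : k ∈ {n | g n = q} := by
      rw [hk]
      exact Set.mem_singleton k
    exact ⟨k, h2⟩

private theorem rz_half (hx : x ∈ Gr3) (hg : (labZ c).Val x g) (hg' : (labZ c).Val x' g')
    (τ : Equiv.Perm ℕ) (h : ∀ n n', (labZ c).mat x' g' (τ n) (τ n') = (labZ c).mat x g n n')
    {T : Qz P → Qz P} (hT : ∀ n, T (g n) = g' (τ n)) :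
    (∀ q, Vz c x q → Vz c x' (T q)) ∧
      (∀ (m : M) (q), Vz c x q → T (bc c m q) = bc c m (T q)) ∧
      ∀ q, Vz c x q → (Cz c q ↔ Cz c (T q)) := by
  obtain ⟨-, -, h3⟩ := posZ hg
  obtain ⟨h1', -, -⟩ := posZ hg'
  refine ⟨?_, ?_, ?_⟩
  · intro q hq
    obtain ⟨n, rfl⟩ := h3 q hq
    rw [hT]
    exact h1' _
  · intro m q hq
    obtain ⟨n, rfl⟩ := h3 q hq
    obtain ⟨n', hn'⟩ := h3 _ (vz_bc hx hq m)
    rw [← hn', hT, hT]
    have h4 : (labZ c).mat x g n n' (some m) = true := matZ_some.2 hn'.symm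
    rw [← h n n'] at h4
    exact (matZ_some.1 h4).symm
  · intro q hq
    obtain ⟨n, rfl⟩ := h3 q hq
    rw [hT]
    constructor
    · intro h4
      have h5 : (labZ c).mat x g n n none = true := matZ_none.2 ⟨rfl, h4⟩
      rw [← h n n] at h5
      exact (matZ_none.1 h5).2
    · intro h4
      have h5 : (labZ c).mat x' g' (τ n) (τ n) none = true := matZ_none.2 ⟨rfl, h4⟩
      rw [h n n] at h5
      exact (matZ_none.1 h5).2

private theorem rz_fun (hg : (labZ c).Val x g) (k : ℕ → Qz P) :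
    ∃ T : Qz P → Qz P, ∀ n, T (g n) = k n := by
  classical
  obtain ⟨-, h2, -⟩ := posZ hg
  refine ⟨fun q => if hq : ∃ n, g n = q then k hq.choose else k 0, fun n => ?_⟩
  have hq : ∃ n', g n' = g n := ⟨n, rfl⟩
  show (if hq : ∃ n', g n' = g n then k hq.choose else k 0) = k n
  rw [dif_pos hq, h2 hq.choose_spec]

theorem rcvZ (hx : x ∈ Gr3) (hx' : x' ∈ Gr3) (hg : (labZ c).Val x g) (hg' : (labZ c).Val x' g')
    (τ : Equiv.Perm ℕ) (h : ∀ n n', (labZ c).mat x' g' (τ n) (τ n') = (labZ c).mat x g n n') :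
    ∃ σ : Equiv.Perm ℕ, (x' = fun u v => x (σ⁻¹ u) (σ⁻¹ v)) ∧ ∀ n, g' (τ n) = qz σ (g n) := by
  obtain ⟨T, hT⟩ := rz_fun hg fun n => g' (τ n)
  obtain ⟨T', hT'⟩ := rz_fun hg' fun n => g (τ.symm n)
  obtain ⟨v1, -, v3⟩ := posZ hg
  obtain ⟨w1, -, w3⟩ := posZ hg'
  obtain ⟨a1, a2, a3⟩ := rz_half hx hg hg' τ h hT
  obtain ⟨b1, -, -⟩ := rz_half hx' hg' hg τ.symm (fun n n' => by
    have := h (τ.symm n) (τ.symm n')
    rw [Equiv.apply_symm_apply, Equiv.apply_symm_apply] at this
    exact this.symm) hT'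
  have hyp : Hyz c x x' T T' := by
    refine ⟨hx, hx', a1, b1, ?_, ?_, a2, a3⟩
    · intro q hq
      obtain ⟨n, rfl⟩ := v3 q hq
      rw [hT, hT', Equiv.symm_apply_apply]
    · intro q hq
      obtain ⟨n, rfl⟩ := w3 q hq
      rw [hT', hT, Equiv.apply_symm_apply]
  obtain ⟨σ, h1, h2⟩ := coreZ hyp
  refine ⟨σ, h1, fun n => ?_⟩
  rw [← hT, h2 _ (v1 n)]

private def toSum : Qz P → P ⊕ (ℕ × P) ⊕ (Sym2 ℕ × P) ⊕ (ℕ × ℕ × P)
  | .z p => Sum.inl p
  | .vx u p => Sum.inr (Sum.inl (u, p))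
  | .sd s p => Sum.inr (Sum.inr (Sum.inl (s, p)))
  | .ed u v p => Sum.inr (Sum.inr (Sum.inr (u, v, p)))

theorem countable_qz [Countable P] : Countable (Qz P) := by
  haveI : Countable (Sym2 ℕ) := by
    unfold Sym2
    infer_instance
  have h : Injective (toSum : Qz P → _) := by
    intro q q' e
    cases q <;> cases q' <;> simp [toSum] at e ⊢ <;> exact e
  exact h.countable

theorem bc_qz (c : Pce M P) (σ : Equiv.Perm ℕ) (m : M) (q : Qz P) :
    bc c m (qz σ q) = qz σ (bc c m q) := by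
  classical
  cases q with
  | z p => rfl
  | vx u p =>
    show (if m • p ∈ c.B then Qz.z (m • p) else Qz.vx (σ u) (m • p)) =
      qz σ (if m • p ∈ c.B then Qz.z (m • p) else Qz.vx u (m • p))
    split_ifs <;> rfl
  | sd s p =>
    show (if m • p ∈ c.A then Qz.z (m • p) else Qz.sd (s.map σ) (m • p)) =
      qz σ (if m • p ∈ c.A then Qz.z (m • p) else Qz.sd s (m • p))
    split_ifs <;> rfl
  | ed u v p => exact (qz_jo c σ u v (m • p)).symm

private theorem qz_one (q : Qz P) : qz 1 q = q := by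
  cases q with
  | z p => rfl
  | vx u p => rfl
  | sd s p =>
    show Qz.sd (s.map (1 : Equiv.Perm ℕ)) p = Qz.sd s p
    rw [Equiv.Perm.coe_one, Sym2.map_id]
    rfl
  | ed u v p => rfl

private theorem qz_mul (σ τ : Equiv.Perm ℕ) (q : Qz P) : qz (σ * τ) q = qz σ (qz τ q) := by
  cases q with
  | z p => rfl
  | vx u p => rfl
  | sd s p =>
    show Qz.sd (s.map (σ * τ : Equiv.Perm ℕ)) p = Qz.sd ((s.map τ).map σ) p
    rw [Sym2.map_map, Equiv.Perm.coe_mul]
  | ed u v p => rfl

private theorem qz_inj (σ : Equiv.Perm ℕ) : Injective (qz σ : Qz P → Qz P) := by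
  intro q q' h
  have h1 := congrArg (qz σ⁻¹) h
  rwa [← qz_mul, ← qz_mul, inv_mul_cancel, qz_one, qz_one] at h1

private theorem cz_qz (c : Pce M P) (σ : Equiv.Perm ℕ) (q : Qz P) : Cz c (qz σ q) ↔ Cz c q := by
  constructor
  · rintro ⟨u, v, h⟩
    refine ⟨σ⁻¹ u, σ⁻¹ v, ?_⟩
    have h1 := congrArg (qz σ⁻¹) h
    rw [← qz_mul, inv_mul_cancel, qz_one] at h1
    exact h1
  · rintro ⟨u, v, rfl⟩
    exact ⟨σ u, σ v, rfl⟩

private theorem vz_act (c : Pce M P) (σ : Equiv.Perm ℕ) (x : Gx) (q : Qz P) :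
    Vz c (fun u v => x (σ⁻¹ u) (σ⁻¹ v)) (qz σ q) ↔ Vz c x q := by
  cases q with
  | z p => exact Iff.rfl
  | vx u p => exact Iff.rfl
  | sd s p =>
    show (p ∈ c.B \ c.A ∧ ∃ u v, s.map σ = s(u, v) ∧ x (σ⁻¹ u) (σ⁻¹ v) 0 = true) ↔
      (p ∈ c.B \ c.A ∧ ∃ u v, s = s(u, v) ∧ x u v 0 = true)
    refine and_congr Iff.rfl ⟨?_, ?_⟩
    · rintro ⟨u, v, h1, h2⟩
      refine ⟨σ⁻¹ u, σ⁻¹ v, ?_, h2⟩
      have h3 := congrArg (Sym2.map (σ⁻¹ : Equiv.Perm ℕ)) h1
      rw [Sym2.map_map, Sym2.map_mk] at h3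
      rw [← h3]
      have h4 : ((σ⁻¹ : Equiv.Perm ℕ) : ℕ → ℕ) ∘ (σ : ℕ → ℕ) = id := by
        funext n
        simp
      rw [h4, Sym2.map_id]
      rfl
    · rintro ⟨u, v, h1, h2⟩
      refine ⟨σ u, σ v, ?_, ?_⟩
      · rw [h1, Sym2.map_mk]
      · simpa using h2
  | ed u v p =>
    show (p ∉ c.A ∧ p ∉ c.B ∧ x (σ⁻¹ (σ u)) (σ⁻¹ (σ v)) 0 = true) ↔
      (p ∉ c.A ∧ p ∉ c.B ∧ x u v 0 = true)
    simp

theorem labZ_ok (c : Pce M P) : (labZ c).Ok Gr3 where
  act_one := fun x => by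
    show (fun u v => x ((1 : Equiv.Perm ℕ)⁻¹ u) ((1 : Equiv.Perm ℕ)⁻¹ v)) = x
    simp
  act_mul := fun σ τ x => by
    show (fun u v => x ((σ * τ)⁻¹ u) ((σ * τ)⁻¹ v)) =
      fun u v => x (τ⁻¹ (σ⁻¹ u)) (τ⁻¹ (σ⁻¹ v))
    simp [mul_inv_rev]
  qa_one := qz_one
  qa_mul := qz_mul
  qa_el := fun σ u => rfl
  el_inj := by
    intro u v h
    have h1 : Qz.vx u (c.a • c.e) = Qz.vx v (c.a • c.e) := h
    exact (Qz.vx.inj h1).1
  N_el := by
    classical
    intro x _ u
    show (if Vz c x (Qz.vx u (c.a • c.e)) then 1 else 0) = 1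
    rw [if_pos]
    exact aez_mem c
  N_act := by
    classical
    intro σ x q
    show (if Vz c (fun u v => x (σ⁻¹ u) (σ⁻¹ v)) (qz σ q) then 1 else 0) =
      if Vz c x q then 1 else 0
    simp only [vz_act]
  Ψ_act := by
    classical
    intro σ x q q'
    show (fun o : Option M => o.elim false fun m => decide (bc c m (qz σ q) = qz σ q')) =
      fun o : Option M => o.elim false fun m => decide (bc c m q = q')
    funext o
    cases o with
    | none => rfl
    | some m =>
      show decide (bc c m (qz σ q) = qz σ q') = decide (bc c m q = q')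
      rw [bc_qz]
      exact decide_eq_decide.mpr ⟨fun h => qz_inj σ h, fun h => by rw [h]⟩
  δ_act := by
    classical
    intro σ x q
    show (fun o : Option M => o.elim (decide (Cz c (qz σ q))) fun m =>
        decide (bc c m (qz σ q) = qz σ q)) =
      fun o : Option M => o.elim (decide (Cz c q)) fun m => decide (bc c m q = q)
    funext o
    cases o with
    | none =>
      show decide (Cz c (qz σ q)) = decide (Cz c q)
      exact decide_eq_decide.mpr (cz_qz c σ q)
    | some m =>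
      show decide (bc c m (qz σ q) = qz σ q) = decide (bc c m q = q)
      rw [bc_qz]
      exact decide_eq_decide.mpr ⟨fun h => qz_inj σ h, fun h => by rw [h]⟩
  inv := by
    rintro σ x ⟨h1, h2, h3⟩
    refine ⟨fun u => h1 _, fun u v => h2 _ _, fun u => ?_⟩
    obtain ⟨v, hv, hx⟩ := h3 (σ⁻¹ u)
    refine ⟨fun i => σ (v i), σ.injective.comp hv, fun i => ?_⟩
    show x (σ⁻¹ u) (σ⁻¹ (σ (v i))) 0 = true
    simpa using hx i
  meas := gr3_meas
  contN := by
    classical
    intro q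
    show Continuous fun x : Gx => if Vz c x q then 1 else 0
    have hc : ∀ u v, Continuous fun x : Gx => x u v 0 := fun u v =>
      (continuous_apply (0 : Fin 1)).comp ((continuous_apply v).comp (continuous_apply u))
    cases q with
    | z p =>
      have e : (fun x : Gx => if Vz c x (Qz.z p) then (1 : ℕ) else 0) =
          fun _ => if p ∈ c.A ∩ c.B then (1 : ℕ) else 0 := by
        funext x
        have : Vz c x (Qz.z p) ↔ p ∈ c.A ∩ c.B := Iff.rfl
        simp only [this]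
      rw [e]
      exact continuous_const
    | vx u p =>
      have e : (fun x : Gx => if Vz c x (Qz.vx u p) then (1 : ℕ) else 0) =
          fun _ => if p ∈ c.A \ c.B then (1 : ℕ) else 0 := by
        funext x
        have : Vz c x (Qz.vx u p) ↔ p ∈ c.A \ c.B := Iff.rfl
        simp only [this]
      rw [e]
      exact continuous_const
    | sd s p =>
      induction s using Sym2.ind with
      | _ u v =>
        have e : (fun x : Gx => if Vz c x (Qz.sd s(u, v) p) then (1 : ℕ) else 0) =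
            fun x => (fun b : Bool × Bool => if p ∈ c.B \ c.A ∧ (b.1 = true ∨ b.2 = true) then
              (1 : ℕ) else 0) (x u v 0, x v u 0) := by
          funext x
          have : Vz c x (Qz.sd s(u, v) p) ↔
              (p ∈ c.B \ c.A ∧ (x u v 0 = true ∨ x v u 0 = true)) := by
            show (p ∈ c.B \ c.A ∧ ∃ a b, s(u, v) = s(a, b) ∧ x a b 0 = true) ↔ _
            refine and_congr Iff.rfl ⟨?_, ?_⟩
            · rintro ⟨a, b, h1, h2⟩
              rcases Sym2.eq_iff.mp h1 with ⟨rfl, rfl⟩ | ⟨rfl, rfl⟩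
              · exact Or.inl h2
              · exact Or.inr h2
            · rintro (h | h)
              · exact ⟨u, v, rfl, h⟩
              · exact ⟨v, u, Sym2.eq_swap, h⟩
          simp only [this]
        rw [e]
        exact (continuous_of_discreteTopology
          (f := fun b : Bool × Bool => if p ∈ c.B \ c.A ∧ (b.1 = true ∨ b.2 = true) then
              (1 : ℕ) else 0)).comp ((hc u v).prodMk (hc v u))
    | ed u v p =>
      have e : (fun x : Gx => if Vz c x (Qz.ed u v p) then (1 : ℕ) else 0) =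
          fun x => (fun b : Bool => if p ∉ c.A ∧ p ∉ c.B ∧ b = true then (1 : ℕ) else 0)
            (x u v 0) := by
        funext x
        have : Vz c x (Qz.ed u v p) ↔ (p ∉ c.A ∧ p ∉ c.B ∧ x u v 0 = true) := Iff.rfl
        simp only [this]
      rw [e]
      exact (continuous_of_discreteTopology
        (f := fun b : Bool => if p ∉ c.A ∧ p ∉ c.B ∧ b = true then (1 : ℕ) else 0)).comp (hc u v)
  contΨ := fun q q' => continuous_const
  contδ := fun q => continuous_const
  rcv := fun x hx x' hx' g g' hg hg' τ h => rcvZ hx hx' hg hg' τ h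

end Pool.H87.MS
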